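import Pool.Agent.Q181.LR.Eqv

set_option autoImplicit false
set_option linter.unusedSectionVars false

/-! Every matrix over a group ring is stably equivalent to matrices of norm close to `3 / √2` and of
small size. -/

namespace Pool.Agent.Q181.LR

open Matrix TH57.Thr
open Pool.Agent.Q181.LW (Mono LB exists_NS)

variable {G : Type} [Group G] {ι κ : Type} [Fintype ι] [DecidableEq ι] [Fintype κ] [DecidableEq κ]

theorem sq_half : (1 / Real.sqrt 2) ^ 2 = 1 / 2 := by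
  rw [div_pow, one_pow, Real.sq_sqrt two_pos.le]

theorem norm_zero_of (B : Matrix ι κ (MonoidAlgebra ℤ G)) (hB : B = 0) (c : ℝ) : NormLE B c := by
  subst hB
  intro x
  have h1 : normSq (0 : κ → MonoidAlgebra ℝ G) = 0 := by
    rw [normSq_eq]
    simp [n1_zero]
  rw [toReal_zero, Matrix.vecMul_zero, h1]
  exact mul_nonneg (sq_nonneg _) (normSq_nonneg _)

theorem LB_mono {A : Matrix ι κ (MonoidAlgebra ℤ G)} {D D' : ℝ} (h : D ≤ D') (hA : LB A D) :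
    LB A D' := fun x => (hA x).trans (mul_le_mul_of_nonneg_right h (normSq_nonneg _))

/-- the second step -/
theorem step_two {X : Type} [Fintype X] [DecidableEq X] (A : Matrix ι κ (MonoidAlgebra ℤ G))
    (B : Matrix (ι ⊕ X) (κ ⊕ X) (MonoidAlgebra ℤ G)) (hAB : Eqv A B)
    (hM : ∀ i j, Mono (B i j)) (hr : ∀ i, ∃ T : Finset (κ ⊕ X), T.card ≤ 3 ∧
      ∀ j, B i j ≠ 0 → j ∈ T) (hc : ∀ j, ∃ T : Finset (ι ⊕ X), T.card ≤ 3 ∧
      ∀ i, B i j ≠ 0 → i ∈ T) :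
    ∃ C : ℕ, ∀ L : ℕ, 1 ≤ L → ∃ (m : ℕ) (B' : Matrix (ι ⊕ Fin m) (κ ⊕ Fin m) (MonoidAlgebra ℤ G)),
      Eqv A B' ∧ m ≤ C * L ∧ NormLE B' (3 / Real.sqrt 2 + (1 / 2) ^ L) ∧
        ∀ D : ℝ, 0 ≤ D → LB A D → LB B' (C * (D + 1) * L ^ 2) := by
  classical
  obtain ⟨C₁, hC₁⟩ := eqv_LB A B hAB
  set c₀ := Fintype.card X
  set e₀ := Fintype.card (ME B)
  refine ⟨c₀ + 3 * e₀ + 9 * (42 * C₁ + 2), fun L hL => ?_⟩
  have hs : ∀ i, ((Finset.univ.filter fun e => ME.s B e = i).card : ℝ) ≤ 3 := by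
    intro i
    obtain ⟨T, h1, h2⟩ := hr i
    exact_mod_cast (ME.card_s B i T h2).trans h1
  have ht : ∀ i, ((Finset.univ.filter fun e => ME.t B e = i).card : ℝ) ≤ 3 := by
    intro j
    obtain ⟨T, h1, h2⟩ := hc j
    exact_mod_cast (ME.card_t B j T h2).trans h1
  have hN := norm_Zs (ME.s B) (ME.t B) (ME.z B) (L + 2) (θ := 1 / Real.sqrt 2) (by positivity)
    sq_half (by omega) hs ht (ME.mono B hM)
  have hE : Eqv B (Zs (ME.s B) (ME.t B) (ME.z B) (L + 2)) :=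
    eqv_dil B _ _ _ (Vs (L + 2)) (VsUs (L + 2)) (UsVs (L + 2))
      (QVS (ME.s B) (ME.t B) (ME.z B) (L + 2) (by omega) B (ME.isSum B))
  have hE2 := eqv_trans A B _ hAB hE
  let e : Fin (Fintype.card (X ⊕ (ME B × Fin (L + 2)))) ≃ X ⊕ (ME B × Fin (L + 2)) :=
    (Fintype.equivFin _).symm
  have hE3 := eqv_re A _ e hE2
  refine ⟨_, _, hE3, ?_, ?_, ?_⟩
  · rw [Fintype.card_sum, Fintype.card_prod, Fintype.card_fin]
    change c₀ + e₀ * (L + 2) ≤ _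
    have h1 : c₀ ≤ c₀ * L := Nat.le_mul_of_pos_right _ hL
    have h2 : e₀ * (L + 2) ≤ 3 * e₀ * L := by nlinarith [Nat.zero_le e₀]
    nlinarith [Nat.zero_le C₁]
  · refine NormLE_sub _ _ _ _ (NormLE_sub _ _ _ _ ?_)
    refine Pool.Agent.Q181.LW.NormLE_mono (by positivity) ?_ hN
    have h1 : 3 * (1 / Real.sqrt 2) = 3 / Real.sqrt 2 := by ring
    rw [h1, pow_add]
    have h2 : (0 : ℝ) < (1 / 2) ^ L := by positivity
    norm_num
    linarith
  · intro D hD hA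
    refine LB_sub _ _ _ _ (LB_sub _ _ _ _ ?_)
    have h1 := hC₁ D hD hA
    have h2 := LB_Zs (ME.s B) (ME.t B) (ME.z B) (L + 2) (by omega) hs ht (ME.mono B hM) B
      (ME.isSum B) (C₁ * (D + 1)) (by positivity) h1
    refine LB_mono ?_ h2
    have h3 : (1 : ℝ) ≤ L := by exact_mod_cast hL
    have h4 : (0 : ℝ) ≤ c₀ := Nat.cast_nonneg _
    have h5 : (0 : ℝ) ≤ e₀ := Nat.cast_nonneg _
    have h6 : (0 : ℝ) ≤ C₁ := Nat.cast_nonneg _
    have h7 : ((L + 2 : ℕ) : ℝ) ^ 2 ≤ 9 * L ^ 2 := by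
      push_cast
      nlinarith
    have h8 : 42 * (C₁ * (D + 1)) + 2 ≤ (42 * C₁ + 2) * (D + 1) := by nlinarith
    calc (42 * (C₁ * (D + 1)) + 2) * ((L + 2 : ℕ) : ℝ) ^ 2
        ≤ ((42 * C₁ + 2) * (D + 1)) * (9 * L ^ 2) :=
          mul_le_mul h8 h7 (by positivity) (by positivity)
      _ = (9 * (42 * C₁ + 2)) * (D + 1) * L ^ 2 := by ring
      _ ≤ _ := by
          push_cast
          have h9 : 0 ≤ (D + 1) * (L : ℝ) ^ 2 := by positivity
          nlinarith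

/-- **The upper bound for rectangular matrices.** -/
theorem upper_rect (A : Matrix ι κ (MonoidAlgebra ℤ G)) :
    ∃ C : ℕ, ∀ L : ℕ, 1 ≤ L → ∃ (m : ℕ) (B : Matrix (ι ⊕ Fin m) (κ ⊕ Fin m) (MonoidAlgebra ℤ G)),
      Eqv A B ∧ m ≤ C * L ∧ NormLE B (3 / Real.sqrt 2 + (1 / 2) ^ L) ∧
        ∀ D : ℝ, 0 ≤ D → LB A D → LB B (C * (D + 1) * L ^ 2) := by
  classical
  obtain ⟨m₀, s, t, z, hA, hz⟩ := exists_edges_fin A
  rcases Nat.eq_zero_or_pos m₀ with h0 | h0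
  · subst h0
    have hA0 : A = 0 := by
      rw [hA]
      simp
    have hE : Eqv A (fromBlocks A 0 0 1 : Matrix (ι ⊕ Fin 0) (κ ⊕ Fin 0) (MonoidAlgebra ℤ G)) :=
      ⟨1, 1, by simp⟩
    obtain ⟨C₁, hC₁⟩ := eqv_LB A _ hE
    refine ⟨C₁, fun L hL => ⟨0, _, hE, Nat.zero_le _, norm_zero_of _ ?_ _, fun D hD hLB => ?_⟩⟩
    · subst hA0
      ext1 i j
      rcases i with i | i
      · rcases j with j | j
        · rfl
        · exact j.elim0
      · exact i.elim0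
    · refine LB_mono ?_ (hC₁ D hD hLB)
      have h3 : (1 : ℝ) ≤ L := by exact_mod_cast hL
      have h4 : (1 : ℝ) ≤ (L : ℝ) ^ 2 := by nlinarith
      have h5 : (0 : ℝ) ≤ C₁ * (D + 1) := by positivity
      nlinarith
  · exact step_two A (ZC s t z) (eqv_dil A _ _ _ _ (VUC s t z) (UVC s t z)
      (QVSC s t z h0 A hA)) (mono_ZC s t z hz) (ZC_row s t z h0) (ZC_col s t z h0)

end Pool.Agent.Q181.LR
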