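import Pool.Agent.Q181.LR.Ff

set_option autoImplicit false
set_option linter.unusedSectionVars false

/-! The norm of a subdivided form and of its inverse. -/

namespace Pool.Agent.Q181.LR

open Matrix TH57.Thr TH6.LF
open Pool.Agent.Q181.LW (Mono mono_zero mono_one mono_neg schur_test LB exists_NS normSq_sub_le)

variable {G : Type} [Group G]

theorem mono_bar {x : MonoidAlgebra ℤ G} (h : Mono x) : Mono (bar x) := by
  rcases h with rfl | ⟨g, rfl | rfl⟩
  · exact Or.inl bar_zero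
  · refine Or.inr ⟨g⁻¹, Or.inl ?_⟩
    unfold bar
    rw [MonoidAlgebra.mapDomain_single]
  · refine Or.inr ⟨g⁻¹, Or.inr ?_⟩
    unfold bar
    rw [MonoidAlgebra.mapDomain_single]

theorem NS_adj {ι κ : Type} [Fintype ι] [Fintype κ] (M : Matrix ι κ (MonoidAlgebra ℤ G)) (w : ℝ)
    (hw : 0 ≤ w) (h : NS M w) : NS (adj M) w := by
  intro x
  set y := x ᵥ* toReal (adj M) with hy
  have h1 : normSq y = ip x (y ᵥ* toReal M) := by
    rw [← ip_self, hy, ip_vecMul, toReal_adj, adj_adj]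
  have h2 := h y
  rcases eq_or_lt_of_le hw with h0 | h0
  · rw [← h0, zero_mul] at h2
    have h3 := normSq_nonneg (y ᵥ* toReal M)
    have h4 : normSq (y ᵥ* toReal M) = 0 := le_antisymm h2 h3
    by_contra hcon
    rw [← h0, zero_mul, not_le] at hcon
    have h5 : ∀ t : ℝ, 0 < t → 2 * normSq y ≤ t * normSq x := by
      intro t ht
      have h6 := two_ip_le x (y ᵥ* toReal M) t ht
      rw [h4, mul_zero, add_zero, ← h1, abs_of_nonneg (normSq_nonneg y)] at h6
      exact h6
    have h7 := h5 (normSq y / (normSq x + 1)) (div_pos hcon (by linarith [normSq_nonneg x]))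
    have h8 : normSq y / (normSq x + 1) * normSq x ≤ normSq y := by
      rw [div_mul_eq_mul_div, div_le_iff₀ (by linarith [normSq_nonneg x])]
      nlinarith [normSq_nonneg x]
    linarith
  · have h6 := two_ip_le x (y ᵥ* toReal M) w h0
    rw [← h1, abs_of_nonneg (normSq_nonneg y)] at h6
    have h7 : w⁻¹ * normSq (y ᵥ* toReal M) ≤ normSq y := by
      calc w⁻¹ * normSq (y ᵥ* toReal M) ≤ w⁻¹ * (w * normSq y) :=
            mul_le_mul_of_nonneg_left h2 (inv_nonneg.2 hw)
        _ = normSq y := by rw [← mul_assoc, inv_mul_cancel₀ h0.ne', one_mul]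
    linarith

variable {κ E : Type} [Fintype κ] [DecidableEq κ] [Fintype E] [DecidableEq E]
  (s t : E → κ) (z : E → MonoidAlgebra ℤ G) (L : ℕ) (ε : ℤ) (hε : ε = 1 ∨ ε = -1)

/-- the subdivided form -/
noncomputable def Fs : Matrix (κ ⊕ ((E × Fin L) ⊕ (E × Fin L))) (κ ⊕ ((E × Fin L) ⊕ (E × Fin L)))
    (MonoidAlgebra ℤ G) := FF (Qs s z L) (Ss t L) (Us L)

theorem Fs_add : Fs s t z L + ε • adj (Fs s t z L)
    = fromBlocks 0 (fromCols (ε • adj (Ss t L)) (Qs s z L))
      (fromRows (Ss t L) (ε • adj (Qs s z L)))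
      (fromBlocks 0 (Us L) (ε • adj (Us L)) 0) := by
  unfold Fs FF
  rw [adj_fromBlocks, adj_fromBlocks, adj_fromCols, adj_fromRows]
  simp only [adj_zero]
  ext1 i j
  rcases i with i | (i | i) <;> rcases j with j | (j | j) <;>
    simp only [Matrix.add_apply, Matrix.smul_apply, fromBlocks_apply₁₁, fromBlocks_apply₁₂,
      fromBlocks_apply₂₁, fromBlocks_apply₂₂, fromCols_apply_inl, fromCols_apply_inr,
      fromRows_apply_inl, fromRows_apply_inr, Matrix.zero_apply, smul_zero, zero_add, add_zero]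

include hε in
theorem mono_eps {x : MonoidAlgebra ℤ G} (h : Mono x) : Mono (ε • x) := by
  rcases hε with rfl | rfl
  · rwa [one_smul]
  · rw [neg_smul, one_smul]
    exact mono_neg h

include hε in
theorem mono_Fs (hz : ∀ e, Mono (z e)) (x y : κ ⊕ ((E × Fin L) ⊕ (E × Fin L))) :
    Mono ((Fs s t z L + ε • adj (Fs s t z L)) x y) := by
  rw [Fs_add]
  have hQ : ∀ i (x : E × Fin L), Mono (Qs s z L i x) := fun i x =>
    mono_Zs s t z L hz (Sum.inl i) (Sum.inr x)
  have hS : ∀ (x : E × Fin L) j, Mono (Ss t L x j : MonoidAlgebra ℤ G) := fun x j =>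
    mono_Zs s t z L hz (Sum.inr x) (Sum.inl j)
  have hU : ∀ x y : E × Fin L, Mono (Us L x y : MonoidAlgebra ℤ G) := fun x y =>
    mono_Zs s t z L hz (Sum.inr x) (Sum.inr y)
  rcases x with i | (x | x) <;> rcases y with j | (y | y)
  · exact mono_zero
  · exact mono_eps ε hε (mono_bar (hS y i))
  · exact hQ i y
  · exact hS x j
  · exact mono_zero
  · exact hU x y
  · exact mono_eps ε hε (mono_bar (hQ j x))
  · exact mono_eps ε hε (mono_bar (hU y x))
  · exact mono_zero

/-- the absolute values -/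
def mf : κ ⊕ ((E × Fin L) ⊕ (E × Fin L)) → κ ⊕ ((E × Fin L) ⊕ (E × Fin L)) → ℝ
  | Sum.inl _, Sum.inl _ => 0
  | Sum.inl i, Sum.inr (Sum.inl x) => mm s t L (Sum.inr x) (Sum.inl i)
  | Sum.inl i, Sum.inr (Sum.inr x) => mm s t L (Sum.inl i) (Sum.inr x)
  | Sum.inr (Sum.inl x), Sum.inl j => mm s t L (Sum.inr x) (Sum.inl j)
  | Sum.inr (Sum.inl _), Sum.inr (Sum.inl _) => 0
  | Sum.inr (Sum.inl x), Sum.inr (Sum.inr y) => mm s t L (Sum.inr x) (Sum.inr y)
  | Sum.inr (Sum.inr x), Sum.inl j => mm s t L (Sum.inl j) (Sum.inr x)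
  | Sum.inr (Sum.inr x), Sum.inr (Sum.inl y) => mm s t L (Sum.inr y) (Sum.inr x)
  | Sum.inr (Sum.inr _), Sum.inr (Sum.inr _) => 0

theorem mf_nonneg (x y : κ ⊕ ((E × Fin L) ⊕ (E × Fin L))) : 0 ≤ mf s t L x y := by
  rcases x with i | (x | x) <;> rcases y with j | (y | y) <;> simp only [mf] <;>
    first | exact le_rfl | exact mm_nonneg s t L _ _

theorem mf_symm (x y : κ ⊕ ((E × Fin L) ⊕ (E × Fin L))) : mf s t L x y = mf s t L y x := by
  rcases x with i | (x | x) <;> rcases y with j | (y | y) <;> rfl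

theorem bar_eq_zero {x : MonoidAlgebra ℤ G} (h : x = 0) : bar x = 0 := by rw [h, bar_zero]

theorem mf_one (x y : κ ⊕ ((E × Fin L) ⊕ (E × Fin L)))
    (h : (Fs s t z L + ε • adj (Fs s t z L)) x y ≠ 0) : 1 ≤ mf s t L x y := by
  rw [Fs_add] at h
  have key : ∀ (x : κ ⊕ (E × Fin L)) (y : κ ⊕ (E × Fin L)),
      ε • bar (Zs s t z L x y) ≠ 0 → 1 ≤ mm s t L x y := by
    intro x y h
    apply mm_one s t z L x y
    intro h1
    exact h (by rw [h1, bar_zero, smul_zero])
  rcases x with i | (x | x) <;> rcases y with j | (y | y)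
  · exact absurd rfl h
  · exact key (Sum.inr y) (Sum.inl i) h
  · exact mm_one s t z L (Sum.inl i) (Sum.inr y) h
  · exact mm_one s t z L (Sum.inr x) (Sum.inl j) h
  · exact absurd rfl h
  · exact mm_one s t z L (Sum.inr x) (Sum.inr y) h
  · exact key (Sum.inl j) (Sum.inr x) h
  · exact key (Sum.inr y) (Sum.inr x) h
  · exact absurd rfl h

/-- the weights -/
noncomputable def ff (θ : ℝ) : κ ⊕ ((E × Fin L) ⊕ (E × Fin L)) → ℝ
  | Sum.inl _ => 1
  | Sum.inr (Sum.inl x) => fr (ι := κ) L θ (Sum.inr x)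
  | Sum.inr (Sum.inr x) => fc (κ := κ) L θ (Sum.inr x)

variable {θ : ℝ} (hθ0 : 0 < θ) (hθ : θ ^ 2 = 1 / 2) (hL : 1 ≤ L)
  (hd : ∀ i, ((Finset.univ.filter fun e => s e = i).card : ℝ)
    + ((Finset.univ.filter fun e => t e = i).card : ℝ) ≤ 3)

include hθ0 in
theorem ff_pos (x : κ ⊕ ((E × Fin L) ⊕ (E × Fin L))) : 0 < ff (κ := κ) L θ x := by
  rcases x with i | (x | x)
  · exact one_pos
  · exact fr_pos (ι := κ) L hθ0 (Sum.inr x)
  · exact fc_pos (κ := κ) L hθ0 (Sum.inr x)

include hθ hL in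
theorem sum_s (i : κ) : ∑ x : E × Fin L, mm s t L (Sum.inl i) (Sum.inr x)
    * fc (κ := κ) L θ (Sum.inr x)
    = ((Finset.univ.filter fun e => s e = i).card : ℝ) * (θ + (1 / 2) ^ L) := by
  simp only [mm, fc]
  rw [Fintype.sum_prod_type]
  have h1 : ∀ e : E, ∑ k : Fin L, (if s e = i ∧ (k : ℕ) = 0 then (1 : ℝ) else 0)
      * (θ ^ (2 * (k : ℕ) + 1) + θ ^ (2 * (L - k)))
      = (if s e = i then 1 else 0) * (θ + (1 / 2) ^ L) := by
    intro e
    rw [Finset.sum_eq_single ⟨0, hL⟩]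
    · simp only [and_true, mul_zero, zero_add, pow_one, Nat.sub_zero]
      rw [pow_mul, hθ]
    · intro k _ hk
      rw [if_neg, zero_mul]
      rintro ⟨-, h⟩
      exact hk (Fin.ext h)
    · intro h; exact absurd (Finset.mem_univ _) h
  simp only [h1]
  rw [← Finset.sum_mul, ← Finset.sum_filter, Finset.sum_const, nsmul_eq_mul, mul_one]

include hθ hL in
theorem sum_t (i : κ) : ∑ x : E × Fin L, mm s t L (Sum.inr x) (Sum.inl i)
    * fr (ι := κ) L θ (Sum.inr x)
    = ((Finset.univ.filter fun e => t e = i).card : ℝ) * (θ + (1 / 2) ^ L) := by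
  simp only [mm, fr]
  rw [Fintype.sum_prod_type]
  have h1 : ∀ e : E, ∑ k : Fin L, (if t e = i ∧ (k : ℕ) + 1 = L then (1 : ℝ) else 0)
      * (θ ^ (2 * (k : ℕ) + 2) + θ ^ (2 * (L - k) - 1))
      = (if t e = i then 1 else 0) * (θ + (1 / 2) ^ L) := by
    intro e
    rw [Finset.sum_eq_single ⟨L - 1, by omega⟩]
    · have e0 : L - 1 + 1 = L := by omega
      have e1 : 2 * (L - 1) + 2 = 2 * L := by omega
      have e2 : 2 * (L - (L - 1)) - 1 = 1 := by omega
      simp only [e0, and_true, e1, e2, pow_one]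
      rw [pow_mul, hθ, add_comm ((1 / 2 : ℝ) ^ L)]
    · intro k _ hk
      rw [if_neg, zero_mul]
      rintro ⟨-, h⟩
      apply hk
      apply Fin.ext
      simp only
      omega
    · intro h; exact absurd (Finset.mem_univ _) h
  simp only [h1]
  rw [← Finset.sum_mul, ← Finset.sum_filter, Finset.sum_const, nsmul_eq_mul, mul_one]

include hθ0 hθ hL hd in
theorem ff_row (x : κ ⊕ ((E × Fin L) ⊕ (E × Fin L))) :
    ∑ y, mf s t L x y * ff (κ := κ) L θ y ≤ (3 * θ + 3 * (1 / 2) ^ L) * ff (κ := κ) L θ x := by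
  have hs : ∀ i, ((Finset.univ.filter fun e => s e = i).card : ℝ) ≤ 3 := fun i => by
    have := hd i
    have h2 : (0 : ℝ) ≤ ((Finset.univ.filter fun e => t e = i).card : ℝ) := Nat.cast_nonneg _
    linarith
  have ht : ∀ i, ((Finset.univ.filter fun e => t e = i).card : ℝ) ≤ 3 := fun i => by
    have := hd i
    have h2 : (0 : ℝ) ≤ ((Finset.univ.filter fun e => s e = i).card : ℝ) := Nat.cast_nonneg _
    linarith
  rw [Fintype.sum_sum_type, Fintype.sum_sum_type]
  rcases x with i | (x | x)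
  · simp only [mf, ff, zero_mul, Finset.sum_const_zero, zero_add, mul_one]
    rw [sum_s s t L hθ hL i, sum_t s t L hθ hL i]
    have h2 := hd i
    have h3 : 0 ≤ θ + (1 / 2) ^ L := by positivity
    nlinarith
  · have h1 := row_le s t L hθ0 hθ hL hs (Sum.inr x)
    rw [Fintype.sum_sum_type] at h1
    simp only [mf, ff, zero_mul, Finset.sum_const_zero, zero_add, mul_one]
    refine le_trans (le_of_eq ?_) h1
    congr 1
    exact Finset.sum_congr rfl fun j _ => by simp only [fc, mul_one]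
  · have h1 := col_le s t L hθ0 hθ hL ht (Sum.inr x)
    rw [Fintype.sum_sum_type] at h1
    simp only [mf, ff, zero_mul, Finset.sum_const_zero, add_zero, mul_one]
    refine le_trans (le_of_eq ?_) h1
    congr 1
    exact Finset.sum_congr rfl fun j _ => by simp only [fr, mul_one]

include hθ0 hθ hL hd hε in
/-- **The norm of the subdivided form.** -/
theorem norm_Fs (hz : ∀ e, Mono (z e)) :
    NormLE (Fs s t z L + ε • adj (Fs s t z L)) (3 * θ + 3 * (1 / 2) ^ L) := by
  have h := schur_test (Fs s t z L + ε • adj (Fs s t z L)) (mono_Fs s t z L ε hε hz) (mf s t L)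
    (mf_one s t z L ε) (mf_nonneg s t L) (ff L θ) (ff L θ) (ff_pos L hθ0)
    (3 * θ + 3 * (1 / 2) ^ L) (3 * θ + 3 * (1 / 2) ^ L) (by positivity) (by positivity)
    (fun j => (ff_pos L hθ0 j).le) (ff_row s t L hθ0 hθ hL hd)
    (fun j => by
      refine le_trans (le_of_eq ?_) (ff_row s t L hθ0 hθ hL hd j)
      exact Finset.sum_congr rfl fun i _ => by rw [mf_symm])
  intro x
  rw [sq]
  exact h x

end Pool.Agent.Q181.LR
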