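import Pool.Agent.TH57.Thr.Struct2
import Pool.Agent.Q181.LW.Law
import Pool.Agent.Q181.LR.Fn

set_option autoImplicit false
set_option linter.style.haveILetI false
set_option linter.unusedSectionVars false

/-! Matrices over the integral group ring of any group of operator norm at most `3 / √2` plus a small
number come from virtually cyclic subgroups (the proofs are those of `TH57.Thr`). -/

namespace Pool.Agent.Q181.LR

open Matrix SimpleGraph TH57.Thr

variable {G : Type*} [Group G] {ι κ : Type*}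

/-- Up to a change of bases by group elements, `A` is a direct sum of matrices over group rings of
virtually cyclic subgroups. -/
def Struct (A : Matrix ι κ (MonoidAlgebra ℤ G)) : Prop :=
  ∃ (ρ : ι ⊕ κ → ι ⊕ κ) (u : ι ⊕ κ → G) (C : ι ⊕ κ → Subgroup G),
    (∀ b, ∃ s : C b, (Subgroup.zpowers s).FiniteIndex) ∧ ∀ i j h, (A i j).coeff h ≠ 0 →
      ρ (Sum.inl i) = ρ (Sum.inr j) ∧
        u (Sum.inl i) * h * (u (Sum.inr j))⁻¹ ∈ C (ρ (Sum.inl i))

/-- The stabilisers of the components are virtually cyclic. -/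
theorem stab_vc_of [Fintype ι] [Fintype κ] [DecidableEq ι] [DecidableEq κ]
    (A : Matrix ι κ (MonoidAlgebra ℤ G)) (b : Vx G ι κ) (N : ℕ)
    (hN : ¬ HasTripod (cp A b).toSimpleGraph N) :
    ∃ s : stab A b, (Subgroup.zpowers s).FiniteIndex := by
  classical
  letI := act A b
  set Γ := (cp A b).toSimpleGraph with hΓ
  have hconn : Γ.Connected := (cp A b).connected_toSimpleGraph
  have hadj : ∀ u v : cp A b, Γ.Adj u v ↔ (gr A).Adj u.1 v.1 := fun u v =>
    SimpleGraph.ConnectedComponent.toSimpleGraph_adj _ u.2 v.2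
  refine vc_of_noTripod (S := stab A b) hconn (fun v => (Sum.isLeft v.1)) ?_ (dg A) ?_ N hN
    ?_ ?_ (Finset.univ.biUnion (fun p : ι ⊕ κ =>
      if h : ∃ v : cp A b, ix v.1 = p then {Classical.choose h} else ∅)) ?_
  · intro u v h
    rw [hadj] at h
    rcases u with ⟨p | q, hu⟩ <;> rcases v with ⟨p' | q', hv⟩
    · exact absurd rfl h
    · simp
    · simp
    · exact absurd rfl h
  · intro v
    obtain ⟨T, hT1, hT2⟩ := nbr_row A v.1
    have hsub : (Subtype.val '' Γ.neighborSet v) ⊆ (T : Set (Vx G ι κ)) := by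
      rintro _ ⟨u, hu, rfl⟩
      exact hT1 ((hadj v u).1 hu)
    have hfin : (Subtype.val '' Γ.neighborSet v).Finite := T.finite_toSet.subset hsub
    refine ⟨hfin.of_finite_image Subtype.val_injective.injOn, ?_⟩
    rw [← Set.ncard_image_of_injective _ Subtype.val_injective]
    exact (Set.ncard_le_ncard hsub T.finite_toSet).trans (by rw [Set.ncard_coe_finset]; exact hT2)
  · intro g u v h
    rw [hadj] at h ⊢
    exact adj_mv A g.1 _ _ h
  · intro g v h
    exact Subtype.ext (mv_free g.1 v.1 (congrArg Subtype.val h))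
  · intro v
    have hex : ∃ w : cp A b, ix w.1 = ix v.1 := ⟨v, rfl⟩
    set w := Classical.choose hex with hw
    have hwix : ix w.1 = ix v.1 := Classical.choose_spec hex
    have h1 : mv (ge v.1 * (ge w.1)⁻¹) w.1 = v.1 := by
      calc mv (ge v.1 * (ge w.1)⁻¹) w.1
          = mv (ge v.1 * (ge w.1)⁻¹) (mv (ge w.1) (bs (ix w.1))) := by rw [mv_ge_bs w.1]
        _ = v.1 := by rw [← mv_mul, inv_mul_cancel_right, hwix, mv_ge_bs]
    have h2 : ge v.1 * (ge w.1)⁻¹ ∈ stab A b := by
      rw [mem_stab]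
      have hb1 : (gr A).Reachable b v.1 := (mem_cp A b _).1 v.2
      have hb2 : (gr A).Reachable b w.1 := (mem_cp A b _).1 w.2
      have h3 := reachable_mv A (ge v.1 * (ge w.1)⁻¹) hb2
      rw [h1] at h3
      exact hb1.trans h3.symm
    refine ⟨⟨_, h2⟩, w, ?_, Subtype.ext h1⟩
    rw [Finset.mem_biUnion]
    refine ⟨ix v.1, Finset.mem_univ _, ?_⟩
    rw [dif_pos hex]
    exact Finset.mem_singleton_self _

/-- The structure theorem for all groups. -/
theorem struct_of
    (A : Matrix ι κ (MonoidAlgebra ℤ G))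
    (hvc : ∀ b, ∃ s : stab A b, (Subgroup.zpowers s).FiniteIndex) : Struct A := by
  classical
  let st : Setoid (ι ⊕ κ) :=
    { r := fun p q => ∃ g : G, (gr A).Reachable (bs p) (mv g (bs q))
      iseqv := by
        refine ⟨fun p => ⟨1, by rw [mv_one]⟩, ?_, ?_⟩
        · rintro p q ⟨g, hg⟩
          refine ⟨g⁻¹, ?_⟩
          have := reachable_mv A g⁻¹ hg
          rw [← mv_mul, inv_mul_cancel, mv_one] at this
          exact this.symm
        · rintro p q r ⟨g, hg⟩ ⟨h, hh⟩
          refine ⟨g * h, ?_⟩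
          rw [mv_mul]
          exact hg.trans (reachable_mv A g hh) }
  let ρ : ι ⊕ κ → ι ⊕ κ := fun p => (Quotient.mk st p).out
  have hρ : ∀ p, ∃ g : G, (gr A).Reachable (bs (ρ p)) (mv g (bs p)) := fun p =>
    Quotient.exact (Quotient.out_eq (Quotient.mk st p))
  choose u hu using hρ
  refine ⟨ρ, u, fun b => stab A (bs b), fun b => hvc _, ?_⟩
  intro i j h hne
  have hadj : (gr A).Reachable (bs (Sum.inl i)) (mv h (bs (Sum.inr j))) := by
    apply SimpleGraph.Adj.reachable
    rw [gr_adj]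
    simp only [bs, mv, wt]
    simpa using hne
  have heq : ρ (Sum.inl i) = ρ (Sum.inr j) := by
    have : Quotient.mk st (Sum.inl i) = Quotient.mk st (Sum.inr j) := Quotient.sound ⟨h, hadj⟩
    simp only [ρ, this]
  refine ⟨heq, ?_⟩
  rw [mem_stab]
  have h1 := hu (Sum.inl i)
  have h2 := reachable_mv A (u (Sum.inl i)) hadj
  have h3 := hu (Sum.inr j)
  rw [← heq] at h3
  have h4 := reachable_mv A (u (Sum.inl i) * h * (u (Sum.inr j))⁻¹) h3
  have e : mv (u (Sum.inl i) * h * (u (Sum.inr j))⁻¹) (mv (u (Sum.inr j)) (bs (Sum.inr j)))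
      = mv (u (Sum.inl i)) (mv h (bs (Sum.inr j) : Vx G ι κ)) := by
    rw [← mv_mul, ← mv_mul]
    congr 1
    group
  rw [e] at h4
  exact (h1.trans h2).trans h4.symm


section fin

variable {G : Type} [Group G] {ι κ : Type} [Fintype ι] [Fintype κ] [DecidableEq ι] [DecidableEq κ]

theorem struct_adj (A : Matrix ι κ (MonoidAlgebra ℤ G)) (h : Struct (TH6.LF.adj A)) : Struct A := by
  obtain ⟨ρ, u, C, hC, hst⟩ := h
  refine ⟨Sum.swap ∘ ρ ∘ Sum.swap, u ∘ Sum.swap, C ∘ Sum.swap, fun b => hC _,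
    fun i j h hne => ?_⟩
  have h1 := hst j i h⁻¹ (by rw [TH6.LF.coeff_adj, inv_inv]; exact hne)
  refine ⟨by simp only [Function.comp, Sum.swap_inl, Sum.swap_inr]; rw [h1.1], ?_⟩
  simp only [Function.comp, Sum.swap_inl, Sum.swap_inr, Sum.swap_swap]
  rw [← h1.1]
  have h2 := inv_mem h1.2
  rw [_root_.mul_inv_rev, _root_.mul_inv_rev, inv_inv, inv_inv, ← mul_assoc] at h2
  exact h2

theorem NormLE_adj' (A : Matrix ι κ (MonoidAlgebra ℤ G)) (c : ℝ) (h : NormLE A c) :
    NormLE (TH6.LF.adj A) c := NS_adj A (c ^ 2) (sq_nonneg c) h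

/-- **Few rows.** -/
theorem struct_size (A : Matrix ι κ (MonoidAlgebra ℤ G))
    (hA : NormLE A (3 / Real.sqrt 2 + (1 / 2) ^ (2 * Fintype.card ι + 30))) : Struct A :=
  struct_of A fun b => stab_vc_of A b _ (Pool.Agent.Q181.LW.noTripod_size A hA b)

/-- **Few rows or few columns.** -/
theorem struct_min (A : Matrix ι κ (MonoidAlgebra ℤ G))
    (hA : NormLE A (3 / Real.sqrt 2
      + (1 / 2) ^ (2 * min (Fintype.card ι) (Fintype.card κ) + 30))) : Struct A := by
  rcases le_total (Fintype.card ι) (Fintype.card κ) with h | h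
  · rw [min_eq_left h] at hA
    exact struct_size A hA
  · rw [min_eq_right h] at hA
    exact struct_adj A (struct_size (TH6.LF.adj A) (NormLE_adj' A _ hA))

/-- **Bounded below.** -/
theorem struct_inv (A : Matrix ι κ (MonoidAlgebra ℤ G)) (K : ℕ)
    (hB : ∀ x : ι → MonoidAlgebra ℝ G, normSq x ≤ (K : ℝ) ^ 2 * normSq (x ᵥ* toReal A))
    (hA : NormLE A (3 / Real.sqrt 2 + (1 / 2) ^ (8 * K + 31))) : Struct A :=
  struct_of A fun b => stab_vc_of A b _ (Pool.Agent.Q181.LW.noTripod_inv A K hB hA b)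

end fin

end Pool.Agent.Q181.LR
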