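import Pool.Agent.Q237.LR.Stm

/-!
# Project LR (helper237), job POW2: many sites with comparable power-law amplitudes
-/

set_option autoImplicit false

namespace Pool.Agent.Q181.LR

open Pool.Agent.Q237.LR
open Filter

/-- the points of the cube `[L, 2L]^d` -/
noncomputable def cube (d L : ℕ) : Finset (Fin d → ℤ) := Fintype.piFinset fun _ => Finset.Icc (L : ℤ) (2 * L)

theorem card_cube (d L : ℕ) : (cube d L).card = (L + 1) ^ d := by
  unfold cube
  rw [Fintype.card_piFinset]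
  simp only [Int.card_Icc, Finset.prod_const, Finset.card_univ, Fintype.card_fin]
  congr 1
  omega

theorem norm_cube {d L : ℕ} (hd : 1 ≤ d) {z : Fin d → ℤ} (hz : z ∈ cube d L) :
    (L : ℝ) ≤ ‖z‖ ∧ ‖z‖ ≤ 2 * L := by
  unfold cube at hz
  rw [Fintype.mem_piFinset] at hz
  constructor
  · have h := hz ⟨0, hd⟩
    rw [Finset.mem_Icc] at h
    have h1 : ‖z ⟨0, hd⟩‖ ≤ ‖z‖ := norm_le_pi_norm z ⟨0, hd⟩
    have h2 : (L : ℝ) ≤ ‖z ⟨0, hd⟩‖ := by
      rw [Int.norm_eq_abs]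
      have h3 : (L : ℝ) ≤ ((z ⟨0, hd⟩ : ℤ) : ℝ) := by exact_mod_cast h.1
      exact h3.trans (le_abs_self _)
    exact h2.trans h1
  · rw [pi_norm_le_iff_of_nonneg (by positivity)]
    intro i
    have h := hz i
    rw [Finset.mem_Icc] at h
    rw [Int.norm_eq_abs, abs_le]
    have h3 : (L : ℝ) ≤ ((z i : ℤ) : ℝ) := by exact_mod_cast h.1
    have h4 : ((z i : ℤ) : ℝ) ≤ 2 * L := by exact_mod_cast h.2
    have h5 : (0 : ℝ) ≤ L := Nat.cast_nonneg L
    constructor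
    · linarith
    · exact h4

theorem pow2 : S_POW2 := by
  intro d α e hd hα hαd he
  refine ⟨(2 : ℝ) ^ α, fun M => ?_⟩
  have he' : 0 < |e| := abs_pos.2 he
  -- choose `L`
  have htend : Tendsto (fun L : ℕ => |e| * (2 : ℝ) ^ (-α) * (L : ℝ) ^ ((d : ℝ) - α)) atTop atTop := by
    apply Tendsto.const_mul_atTop (by positivity)
    exact (tendsto_rpow_atTop (sub_pos.2 hαd)).comp tendsto_natCast_atTop_atTop
  obtain ⟨L, hL1, hLM⟩ := ((eventually_ge_atTop 1).and (htend.eventually_ge_atTop M)).exists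
  have hL0 : (0 : ℝ) < L := by exact_mod_cast hL1
  refine ⟨cube d L, |e| * (2 * (L : ℝ)) ^ (-α), by positivity, ?_, ?_, ?_, ?_⟩
  · intro h0
    have h := (norm_cube hd h0).1
    rw [norm_zero] at h
    linarith
  · rw [← Finset.card_pos, card_cube]
    positivity
  · intro z hz
    obtain ⟨h1, h2⟩ := norm_cube hd hz
    have hzn : 0 < ‖z‖ := hL0.trans_le h1
    have hz0 : z ≠ 0 := norm_pos_iff.1 hzn
    rw [if_neg hz0, abs_mul, abs_of_pos (Real.rpow_pos_of_pos hzn _)]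
    constructor
    · apply mul_le_mul_of_nonneg_left _ he'.le
      exact Real.rpow_le_rpow_of_nonpos hzn h2 (by linarith)
    · have h3 : ‖z‖ ^ (-α) ≤ (L : ℝ) ^ (-α) := Real.rpow_le_rpow_of_nonpos hL0 h1 (by linarith)
      have h4 : (2 : ℝ) ^ α * (|e| * (2 * (L : ℝ)) ^ (-α)) = |e| * (L : ℝ) ^ (-α) := by
        rw [Real.mul_rpow (by norm_num) hL0.le]
        have h5 : (2 : ℝ) ^ α * (2 : ℝ) ^ (-α) = 1 := by
          rw [← Real.rpow_add (by norm_num)]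
          simp
        calc (2 : ℝ) ^ α * (|e| * ((2 : ℝ) ^ (-α) * (L : ℝ) ^ (-α)))
            = ((2 : ℝ) ^ α * (2 : ℝ) ^ (-α)) * (|e| * (L : ℝ) ^ (-α)) := by ring
          _ = |e| * (L : ℝ) ^ (-α) := by rw [h5, one_mul]
      rw [h4]
      exact mul_le_mul_of_nonneg_left h3 he'.le
  · rw [card_cube]
    refine hLM.trans ?_
    have h5 : (L : ℝ) ^ ((d : ℝ) - α) = (L : ℝ) ^ (-α) * (L : ℝ) ^ d := by
      rw [sub_eq_neg_add, Real.rpow_add hL0, Real.rpow_natCast]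
    rw [h5, Real.mul_rpow (by norm_num) hL0.le]
    push_cast
    have h6 : (L : ℝ) ^ d ≤ ((L : ℝ) + 1) ^ d := pow_le_pow_left₀ hL0.le (by linarith) d
    have h7 : 0 ≤ |e| * ((2 : ℝ) ^ (-α) * (L : ℝ) ^ (-α)) := by positivity
    calc |e| * (2 : ℝ) ^ (-α) * ((L : ℝ) ^ (-α) * (L : ℝ) ^ d)
        = |e| * ((2 : ℝ) ^ (-α) * (L : ℝ) ^ (-α)) * (L : ℝ) ^ d := by ring
      _ ≤ |e| * ((2 : ℝ) ^ (-α) * (L : ℝ) ^ (-α)) * ((L : ℝ) + 1) ^ d :=
          mul_le_mul_of_nonneg_left h6 h7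

end Pool.Agent.Q181.LR
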