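import Pool.Agent.Y477.AV.Fin
import Pool.Agent.Q181.LR.Vc
import Pool.Agent.Q181.LR.Up

set_option autoImplicit false
set_option linter.unusedSectionVars false
set_option linter.style.haveILetI false

/-! Kernel dimensions of integer matrices of norm close to `3 / √2`. -/

open scoped InnerProductSpace ENNReal
open Filter Topology

namespace Pool.Agent.Q181.LR

open Pool.Agent.H80R2
open Pool.Agent.H80R2.BC (L2 GMat vdim IsTr LInv Equi act kerA Coef)
open Pool.Agent.H812R3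
open Pool.Agent.W656.VA
open Pool.Agent.TH107.AT
open TH57.Thr TH57.Thr.Ati
open Pool.Agent.Y477.AV

section

variable {G : Type} [Group G] {K L : Type} [Fintype K] [Fintype L] [DecidableEq K] [DecidableEq L]

/-- **Matrices which come from virtually cyclic subgroups.** -/
theorem kap_of_struct {K L : Type} [Fintype K] [Fintype L] [DecidableEq K] [DecidableEq L]
    (N : Matrix K L (MonoidAlgebra ℤ G)) (hN : Struct N) (A : Matrix K L (MonoidAlgebra ℂ G))
    (hA : ∀ i j g, (A i j).coeff g ≠ 0 → (N i j).coeff g ≠ 0) : kap A ∈ Lam G := by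
  classical
  obtain ⟨ρ, u, C, hC, hst⟩ := hN
  let D1 : Matrix K K (MonoidAlgebra ℂ G) :=
    Matrix.diagonal fun i => MonoidAlgebra.single (u (Sum.inl i)) 1
  let D1' : Matrix K K (MonoidAlgebra ℂ G) :=
    Matrix.diagonal fun i => MonoidAlgebra.single (u (Sum.inl i))⁻¹ 1
  let D2 : Matrix L L (MonoidAlgebra ℂ G) :=
    Matrix.diagonal fun j => MonoidAlgebra.single (u (Sum.inr j))⁻¹ 1
  let D2' : Matrix L L (MonoidAlgebra ℂ G) :=
    Matrix.diagonal fun j => MonoidAlgebra.single (u (Sum.inr j)) 1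
  have h1 : D1 * D1' = 1 := by
    simp only [D1, D1']
    rw [Matrix.diagonal_mul_diagonal, ← Matrix.diagonal_one]
    congr 1
    funext i
    rw [MonoidAlgebra.single_mul_single, mul_inv_cancel, mul_one, MonoidAlgebra.one_def]
  have h2 : D2 * D2' = 1 := by
    simp only [D2, D2']
    rw [Matrix.diagonal_mul_diagonal, ← Matrix.diagonal_one]
    congr 1
    funext i
    rw [MonoidAlgebra.single_mul_single, inv_mul_cancel, mul_one, MonoidAlgebra.one_def]
  have hB : ∀ i j, (D1 * A * D2) i j = MonoidAlgebra.single (u (Sum.inl i)) 1 * A i j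
      * MonoidAlgebra.single (u (Sum.inr j))⁻¹ 1 := by
    intro i j
    simp only [D1, D2]
    rw [Matrix.mul_diagonal, Matrix.diagonal_mul]
  have hBc : ∀ i j g, ((D1 * A * D2) i j).coeff g ≠ 0 →
      ρ (Sum.inl i) = ρ (Sum.inr j) ∧ g ∈ C (ρ (Sum.inl i)) := by
    intro i j g hg
    rw [hB, MonoidAlgebra.coeff_mul_single_apply, MonoidAlgebra.coeff_single_mul_apply, one_mul,
      mul_one, inv_inv] at hg
    have h1 := hst i j _ (hA i j _ hg)
    refine ⟨h1.1, ?_⟩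
    have h2 := h1.2
    have h3 : u (Sum.inl i) * ((u (Sum.inl i))⁻¹ * (g * u (Sum.inr j))) * (u (Sum.inr j))⁻¹
        = g := by group
    rwa [h3] at h2
  have h3 : kap (D1 * A * D2) = kap A := by
    rw [kap_unit_right _ h2, kap_mul_left D1 (Rop_inj h1)]
  rw [← h3, kap_eq]
  let e := Fintype.equivFin (K ⊕ L)
  let C' : ℕ → Subgroup G := fun b => if h : b < Fintype.card (K ⊕ L) then C (e.symm ⟨b, h⟩) else ⊥
  have hC' : ∀ b, ∃ s : C' b, (Subgroup.zpowers s).FiniteIndex := by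
    intro b
    by_cases h : b < Fintype.card (K ⊕ L)
    · have e1 : C' b = C (e.symm ⟨b, h⟩) := dif_pos h
      rw [e1]
      exact hC _
    · have e1 : C' b = ⊥ := dif_neg h
      rw [e1]
      exact ⟨1, inferInstance⟩
  have hCe : ∀ x, C' (e x) = C x := by
    intro x
    have : C' (e x) = C (e.symm ⟨e x, (e x).2⟩) := dif_pos (e x).2
    rw [this]
    congr 1
    exact e.symm_apply_apply x
  refine vdim_blocks C' hC' (Fintype.card (K ⊕ L)) (gm (D1 * A * D2))
    (fun i => e (ρ (Sum.inl i))) (fun j => e (ρ (Sum.inr j))) (fun i => (e _).2) ?_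
  intro j i g hne
  rw [gm_apply] at hne
  obtain ⟨h4, h5⟩ := hBc i j _ hne
  refine ⟨by rw [h4], ?_⟩
  rw [hCe]
  exact (Subgroup.inv_mem_iff _).1 h5

end

open Matrix

section val

variable {G : Type} [Group G]

/-- integrality in the window -/
theorem below_law {m n : ℕ} (N : Matrix (Fin m) (Fin n) (MonoidAlgebra ℤ G))
    (hN : NormLE N (3 / Real.sqrt 2 + (1 / 2) ^ (2 * min m n + 30)))
    (A : Matrix (Fin m) (Fin n) (G →₀ ℂ))
    (hA : ∀ i j g, A i j g ≠ 0 → (N i j).coeff g ≠ 0) :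
    Pool.Agent.W656.VA.kerDim A ∈ Lam G := by
  rw [kerDim_kap]
  exact kap_of_struct N (struct_min N (by rwa [Fintype.card_fin, Fintype.card_fin])) (ofm A) hA

/-- the kernel dimension is invariant under equivalence -/
theorem kap_eqv {ι κ X : Type} [Fintype ι] [DecidableEq ι] [Fintype κ] [DecidableEq κ]
    [Fintype X] [DecidableEq X] (A : Matrix ι κ (MonoidAlgebra ℤ G))
    (B : Matrix (ι ⊕ X) (κ ⊕ X) (MonoidAlgebra ℤ G)) (h : Eqv A B) :
    kap (B.map (MonoidAlgebra.mapRingHom G (Int.castRingHom ℂ)))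
      = kap (A.map (MonoidAlgebra.mapRingHom G (Int.castRingHom ℂ))) := by
  obtain ⟨P, P', rfl⟩ := h
  rw [toC_mul, toC_mul]
  have h1 : P'.val.map (MonoidAlgebra.mapRingHom G (Int.castRingHom ℂ))
      * P'⁻¹.val.map (MonoidAlgebra.mapRingHom G (Int.castRingHom ℂ)) = 1 := by
    rw [← toC_mul, P'.mul_inv, toC_one]
  have h3 : P.val.map (MonoidAlgebra.mapRingHom G (Int.castRingHom ℂ))
      * P⁻¹.val.map (MonoidAlgebra.mapRingHom G (Int.castRingHom ℂ)) = 1 := by
    rw [← toC_mul, P.mul_inv, toC_one]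
  rw [kap_unit_right _ h1, kap_mul_left _ (Rop_inj h3)]
  have h4 : (fromBlocks A 0 0 1 : Matrix (ι ⊕ X) (κ ⊕ X) (MonoidAlgebra ℤ G)).map
      (MonoidAlgebra.mapRingHom G (Int.castRingHom ℂ))
      = fromBlocks (A.map (MonoidAlgebra.mapRingHom G (Int.castRingHom ℂ))) 0 0 1 := by
    rw [Matrix.fromBlocks_map, toC_one, Matrix.map_zero _ (map_zero _),
      Matrix.map_zero _ (map_zero _)]
  rw [h4, kap_stab]

/-- every integer matrix has the same kernel dimension as small ones of small norm -/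
theorem kap_size {m n : ℕ} (A : Matrix (Fin m) (Fin n) (MonoidAlgebra ℤ G)) :
    ∃ C : ℕ, ∀ L : ℕ, 1 ≤ L → ∃ (m' n' : ℕ) (B : Matrix (Fin m') (Fin n') (MonoidAlgebra ℤ G)),
      m' ≤ C * L ∧ n' ≤ C * L ∧ NormLE B (3 / Real.sqrt 2 + (1 / 2) ^ L) ∧
        kap (toC B) = kap (toC A) := by
  obtain ⟨C, hC⟩ := upper_rect A
  refine ⟨m + n + C, fun L hL => ?_⟩
  obtain ⟨k, B, hE, hk, hN, -⟩ := hC L hL
  refine ⟨m + k, n + k, B.submatrix finSumFinEquiv.symm finSumFinEquiv.symm, ?_, ?_,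
    NormLE_sub _ _ _ _ hN, ?_⟩
  · nlinarith [Nat.zero_le n, Nat.zero_le m]
  · nlinarith [Nat.zero_le n, Nat.zero_le m]
  · exact (kap_re finSumFinEquiv.symm finSumFinEquiv.symm
      (B.map (MonoidAlgebra.mapRingHom G (Int.castRingHom ℂ)))).trans (kap_eqv A B hE)

/-- every value of an integer matrix is a value of small integer matrices of small norm -/
theorem val_size {v : ℝ} (hv : Val (Int.castRingHom ℂ).range G v) :
    ∃ C : ℕ, ∀ L : ℕ, 1 ≤ L → ∃ (m n : ℕ) (N : Matrix (Fin m) (Fin n) (MonoidAlgebra ℤ G)),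
      m ≤ C * L ∧ n ≤ C * L ∧ NormLE N (3 / Real.sqrt 2 + (1 / 2) ^ L) ∧
      Pool.Agent.W656.VA.kerDim (cx N) = v := by
  classical
  obtain ⟨m, n, A, hA, hAv⟩ := exists_kerDim hv
  let f : ℂ → ℤ := fun x => if h : ∃ z : ℤ, (z : ℂ) = x then Classical.choose h else 0
  have hf : ∀ x, (∃ z : ℤ, (z : ℂ) = x) → ((f x : ℤ) : ℂ) = x := by
    intro x h
    simp only [f, dif_pos h]
    exact Classical.choose_spec h
  have hf0 : f 0 = 0 := by
    have := hf 0 ⟨0, by simp⟩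
    exact_mod_cast this
  let N0 : Matrix (Fin m) (Fin n) (MonoidAlgebra ℤ G) :=
    Matrix.of fun i j => MonoidAlgebra.ofCoeff ((A i j).mapRange f hf0)
  have hN0 : ofm A = toC N0 := by
    ext i j g
    rw [toC_coeff]
    change A i j g = ((f (A i j g) : ℤ) : ℂ)
    obtain ⟨z, hz⟩ := hA i j g
    exact (hf _ ⟨z, hz⟩).symm
  obtain ⟨C, hC⟩ := kap_size N0
  refine ⟨C, fun L hL => ?_⟩
  obtain ⟨m', n', B, h1, h2, hB, hk⟩ := hC L hL
  refine ⟨m', n', B, h1, h2, hB, ?_⟩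
  rw [kerDim_cx, hk, ← hN0, ← kerDim_kap, hAv]

end val

/-- **All real numbers, with small matrices.** -/
theorem above_size (r : ℝ) (hr : 0 ≤ r) :
    ∃ (G : Type) (_ : Group G), Group.FG G ∧ Group.IsSolvable G ∧
      (∀ g : G, IsOfFinOrder g → g ^ 2 = 1) ∧
      ∃ C : ℕ, ∀ L : ℕ, 1 ≤ L → ∃ (m n : ℕ) (N : Matrix (Fin m) (Fin n) (MonoidAlgebra ℤ G)),
        m ≤ C * L ∧ n ≤ C * L ∧ NormLE N (3 / Real.sqrt 2 + (1 / 2) ^ L) ∧
        Pool.Agent.W656.VA.kerDim (cx N) = r := by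
  obtain ⟨K, iK, h1, h2, h3, h4⟩ := val_fg r hr
  refine ⟨K, iK, h1, h2, ?_, val_size h4⟩
  intro g hg
  obtain ⟨m, hm, hg⟩ := isOfFinOrder_iff_pow_eq_one.1 hg
  exact h3 g m hm hg

/-- **The conjecture lives in the windows.** -/
theorem window_iff (C : (G : Type) → [Group G] → Prop)
    (hprod : ∀ (G H : Type) [Group G] [Group H], C G → C H → C (G × H))
    (hfree : ∀ (G : Type) [Group G] (m : ℕ), C G → C (Monoid.Coprod G (FreeGroup (Fin m)))) :
    (∀ (G : Type) [Group G], C G → ∀ d : ℕ, IsLcm G d →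
      ∀ (m n : ℕ) (A : Matrix (Fin m) (Fin n) (G →₀ ℂ)),
        ∃ z : ℤ, (d : ℝ) * Pool.Agent.W656.VA.kerDim A = z) ↔
    ∃ a b : ℝ, 0 ≤ a ∧ a < b ∧ ∀ (G : Type) [Group G], C G → ∀ d : ℕ, IsLcm G d →
      ∀ k : ℕ, ∃ L : ℕ, 1 ≤ L ∧
      ∀ (m n : ℕ) (N : Matrix (Fin m) (Fin n) (MonoidAlgebra ℤ G)), m ≤ k * L → n ≤ k * L →
        NormLE N (3 / Real.sqrt 2 + (1 / 2) ^ L) →
        ¬ (a < (d : ℝ) * Pool.Agent.W656.VA.kerDim (cx N) ∧
          (d : ℝ) * Pool.Agent.W656.VA.kerDim (cx N) < b) := by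
  constructor
  · intro h
    refine ⟨0, 1, le_rfl, one_pos, fun G _ hG d hd k => ⟨1, le_rfl, ?_⟩⟩
    rintro m n N _ _ _ ⟨h1, h2⟩
    obtain ⟨z, hz⟩ := h G hG d hd m n (cx N)
    rw [hz] at h1 h2
    have h3 : 0 < z := by exact_mod_cast h1
    have h4 : z < 1 := by exact_mod_cast h2
    omega
  · rintro ⟨a, b, ha, hab, h⟩ G _ hG d hd m n A
    have hR : ∀ (G : Type) [Group G], C G → ∀ d : ℕ, IsLcm G d → ∀ v : ℝ,
        Val (Int.castRingHom ℂ).range G v → ∃ z : ℤ, (d : ℝ) * v = z := by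
      intro G _ hG d hd v hv
      refine gap_val C hprod hfree (Int.castRingHom ℂ).range a b ha hab ?_ G hG d hd v hv
      intro H _ hH e he v hv
      obtain ⟨k, hk⟩ := val_size hv
      obtain ⟨L, hL, hL'⟩ := h H hH e he k
      obtain ⟨m', n', N, h1, h2, hN, rfl⟩ := hk L hL
      exact hL' m' n' N h1 h2 hN
    exact base_change C hprod hfree _ hR ⊤ G hG d hd _
      (val_kerDim A (fun _ _ _ => Subring.mem_top _))

end Pool.Agent.Q181.LR
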