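import Pool.Agent.Q181.LR.Mon

set_option autoImplicit false
set_option linter.unusedSectionVars false

/-! The chain dilation: every matrix becomes a matrix with monomial entries, at most three of them
in each row and in each column. -/

namespace Pool.Agent.Q181.LR

open Matrix TH57.Thr
open Pool.Agent.Q181.LW (Mono mono_zero mono_one mono_neg)

variable {G : Type} [Group G] {ι κ : Type} [Fintype ι] [DecidableEq ι] [Fintype κ]
  [DecidableEq κ] {m : ℕ} (s : Fin m → ι) (t : Fin m → κ) (z : Fin m → MonoidAlgebra ℤ G)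

/-- the new indices -/
abbrev XC (ι κ : Type) (m : ℕ) := (ι × Fin m) ⊕ (κ × Fin m)

noncomputable def mid : Matrix (ι × Fin m) (κ × Fin m) (MonoidAlgebra ℤ G) := fun x y =>
  if x.2 = y.2 ∧ s x.2 = x.1 ∧ t x.2 = y.1 then z x.2 else 0

noncomputable def QC (G : Type) [Group G] (ι κ : Type) [DecidableEq ι] (m : ℕ) :
    Matrix ι (XC ι κ m) (MonoidAlgebra ℤ G) :=
  fromCols (Qs id (fun _ => 1) m) 0

noncomputable def SC (G : Type) [Group G] (ι κ : Type) [DecidableEq κ] (m : ℕ) :
    Matrix (XC ι κ m) κ (MonoidAlgebra ℤ G) :=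
  fromRows 0 (Ss id m)

noncomputable def UC : Matrix (XC ι κ m) (XC ι κ m) (MonoidAlgebra ℤ G) :=
  fromBlocks (Us m) (-mid s t z) 0 (Us m)

noncomputable def VC : Matrix (XC ι κ m) (XC ι κ m) (MonoidAlgebra ℤ G) :=
  fromBlocks (Vs m) ((Vs m : Matrix (ι × Fin m) (ι × Fin m) (MonoidAlgebra ℤ G)) * mid s t z
    * (Vs m : Matrix (κ × Fin m) (κ × Fin m) (MonoidAlgebra ℤ G))) 0 (Vs m)

theorem UVC : UC s t z * VC s t z = 1 := by
  unfold UC VC
  rw [fromBlocks_multiply, ← fromBlocks_one]
  simp only [Matrix.mul_zero, Matrix.zero_mul, add_zero, zero_add, UsVs]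
  rw [← Matrix.mul_assoc, ← Matrix.mul_assoc, UsVs, Matrix.one_mul, Matrix.neg_mul,
    add_neg_cancel]

theorem VUC : VC s t z * UC s t z = 1 := by
  unfold UC VC
  rw [fromBlocks_multiply, ← fromBlocks_one]
  simp only [Matrix.mul_zero, Matrix.zero_mul, add_zero, zero_add, VsUs]
  rw [Matrix.mul_assoc (Vs m * mid s t z), VsUs, Matrix.mul_one, Matrix.mul_neg,
    neg_add_cancel]

theorem QmS (A : Matrix ι κ (MonoidAlgebra ℤ G)) (hA : IsSum s t z A) :
    (Qv id (fun _ => 1) m : Matrix ι (ι × Fin m) (MonoidAlgebra ℤ G)) * mid s t z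
      * (Sv id m : Matrix (κ × Fin m) κ (MonoidAlgebra ℤ G)) = -A := by
  rw [hA]
  ext1 i j
  rw [Matrix.mul_apply, Matrix.neg_apply, Matrix.sum_apply, Fintype.sum_prod_type,
    Finset.sum_eq_single j]
  · rw [← Finset.sum_neg_distrib]
    refine Finset.sum_congr rfl fun k _ => ?_
    rw [Matrix.mul_apply, Finset.sum_eq_single (i, k)]
    · simp only [Qv, Sv, mid, id, Matrix.single_apply, true_and, if_true, one_mul]
      split_ifs with h1
      · simp
      · simp
    · rintro ⟨i', k'⟩ - hne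
      simp only [Qv, mid, id]
      split_ifs with h1 h2
      · exfalso
        apply hne
        rw [← h1, h2.1]
      · simp
      · simp
      · simp
    · intro h; exact absurd (Finset.mem_univ _) h
  · intro j' _ hj'
    refine Finset.sum_eq_zero fun k _ => ?_
    simp only [Sv, id]
    rw [if_neg hj', mul_zero]
  · intro h; exact absurd (Finset.mem_univ _) h

theorem QVSC (hm : 1 ≤ m) (A : Matrix ι κ (MonoidAlgebra ℤ G)) (hA : IsSum s t z A) :
    A = -(QC G ι κ m * VC s t z * SC G ι κ m) := by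
  unfold QC VC SC
  rw [Matrix.fromCols_mul_fromBlocks, Matrix.fromCols_mul_fromRows]
  simp only [Matrix.mul_zero, Matrix.zero_mul, add_zero, zero_add]
  have h1 : (Qs id (fun _ => 1) m : Matrix ι (ι × Fin m) (MonoidAlgebra ℤ G))
      * ((Vs m : Matrix (ι × Fin m) (ι × Fin m) (MonoidAlgebra ℤ G)) * mid s t z
      * (Vs m : Matrix (κ × Fin m) (κ × Fin m) (MonoidAlgebra ℤ G)))
      * (Ss id m : Matrix (κ × Fin m) κ (MonoidAlgebra ℤ G))
      = ((Qs id (fun _ => 1) m : Matrix ι (ι × Fin m) (MonoidAlgebra ℤ G))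
      * (Vs m : Matrix (ι × Fin m) (ι × Fin m) (MonoidAlgebra ℤ G))) * mid s t z
      * ((Vs m : Matrix (κ × Fin m) (κ × Fin m) (MonoidAlgebra ℤ G))
      * (Ss id m : Matrix (κ × Fin m) κ (MonoidAlgebra ℤ G))) := by
    simp only [Matrix.mul_assoc]
  rw [h1, QsVs _ _ m hm, VsSs _ m hm, QmS s t z A hA, neg_neg]

/-- the rank -/
def rC : XC ι κ m → ℕ := Sum.elim (fun x => x.2) (fun y => m + y.2)

theorem UC_diag (x : XC ι κ m) : UC s t z x x = 1 := by
  rcases x with x | x <;> simp [UC, Us]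

theorem UC_tri (x y : XC ι κ m) (hxy : x ≠ y) (h : UC s t z x y ≠ 0) : rC x < rC y := by
  rcases x with x | x <;> rcases y with y | y
  · exact Us_tri m x y (fun h1 => hxy (by rw [h1])) h
  · have := x.2.2
    simp only [rC, Sum.elim_inl, Sum.elim_inr]
    omega
  · exact absurd rfl h
  · have := Us_tri m x y (fun h1 => hxy (by rw [h1])) h
    simp only [rC, Sum.elim_inr]
    omega

/-- the chain matrix -/
noncomputable def ZC : Matrix (ι ⊕ XC ι κ m) (κ ⊕ XC ι κ m) (MonoidAlgebra ℤ G) :=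
  fromBlocks 0 (QC G ι κ m) (SC G ι κ m) (UC s t z)

theorem mono_Us {E : Type} [DecidableEq E] (x y : E × Fin m) :
    Mono (Us m x y : MonoidAlgebra ℤ G) := by
  unfold Us
  split_ifs
  · exact mono_one
  · exact mono_neg mono_one
  · exact mono_zero
  · exact mono_zero

theorem mono_QC (i : ι) (x : XC ι κ m) : Mono (QC G ι κ m i x) := by
  rcases x with x | x
  · change Mono (Qs id (fun _ => 1) m i x)
    unfold Qs
    split_ifs
    · exact mono_one
    · exact mono_zero
  · exact mono_zero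

theorem mono_SC (x : XC ι κ m) (j : κ) : Mono (SC G ι κ m x j) := by
  rcases x with x | x
  · exact mono_zero
  · change Mono (Ss id m x j)
    unfold Ss
    split_ifs
    · exact mono_neg mono_one
    · exact mono_zero

theorem mono_UC (hz : ∀ e, Mono (z e)) (x y : XC ι κ m) : Mono (UC s t z x y) := by
  rcases x with x | x <;> rcases y with y | y
  · exact mono_Us x y
  · change Mono (-(mid s t z x y))
    unfold mid
    split_ifs
    · exact mono_neg (hz _)
    · exact mono_neg mono_zero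
  · exact mono_zero
  · exact mono_Us x y

/-- the next index -/
def nx (x : ι × Fin m) : ι × Fin m := if h : (x.2 : ℕ) + 1 < m then (x.1, ⟨x.2 + 1, h⟩) else x

/-- the previous index -/
def pv (x : ι × Fin m) : ι × Fin m := (x.1, ⟨x.2 - 1, lt_of_le_of_lt (Nat.sub_le _ _) x.2.2⟩)

theorem Us_row (x y : ι × Fin m) (h : (Us m x y : MonoidAlgebra ℤ G) ≠ 0) : y = x ∨
    (y = nx x ∧ (x.2 : ℕ) + 1 < m) := by
  unfold Us at h
  split_ifs at h with h1 h2 h3
  · exact Or.inl (Prod.ext h1.symm h2.symm)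
  · right
    have h4 := y.2.2
    have h5 : (x.2 : ℕ) + 1 < m := by omega
    refine ⟨?_, h5⟩
    unfold nx
    rw [dif_pos h5]
    exact Prod.ext h1.symm (Fin.ext h3.symm)
  · exact absurd rfl h
  · exact absurd rfl h

theorem Us_col (x y : ι × Fin m) (h : (Us m x y : MonoidAlgebra ℤ G) ≠ 0) : x = y ∨
    (x = pv y ∧ 1 ≤ (y.2 : ℕ)) := by
  unfold Us at h
  split_ifs at h with h1 h2 h3
  · exact Or.inl (Prod.ext h1 h2)
  · right
    refine ⟨?_, by omega⟩
    unfold pv
    refine Prod.ext h1 (Fin.ext ?_)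
    simp only
    omega
  · exact absurd rfl h
  · exact absurd rfl h

theorem card3 {α : Type} [DecidableEq α] (a b c : α) : ({a, b, c} : Finset α).card ≤ 3 :=
  Finset.card_le_three

/-- a row of the right hand part -/
theorem QC_row (i : ι) (hm : 1 ≤ m) (x : XC ι κ m) (h : QC G ι κ m i x ≠ 0) :
    x = Sum.inl (i, ⟨0, hm⟩) := by
  rcases x with x | x
  · change Qs id (fun _ => 1) m i x ≠ 0 at h
    unfold Qs at h
    split_ifs at h with h1
    · exact congrArg Sum.inl (Prod.ext h1.1 (Fin.ext h1.2))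
    · exact absurd rfl h
  · exact absurd rfl h

theorem SC_col (j : κ) (hm : 1 ≤ m) (x : XC ι κ m) (h : SC G ι κ m x j ≠ 0) :
    x = Sum.inr (j, ⟨m - 1, by omega⟩) := by
  rcases x with x | x
  · exact absurd rfl h
  · change Ss id m x j ≠ 0 at h
    unfold Ss at h
    split_ifs at h with h1
    · refine congrArg Sum.inr (Prod.ext h1.1 (Fin.ext ?_))
      simp only
      omega
    · exact absurd rfl h

/-- rows of the lower part -/
theorem US_row (x : XC ι κ m) : ∃ T : Finset (κ ⊕ XC ι κ m), T.card ≤ 3 ∧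
    (∀ j, SC G ι κ m x j ≠ 0 → Sum.inl j ∈ T) ∧
    ∀ y, UC s t z x y ≠ 0 → Sum.inr y ∈ T := by
  classical
  rcases x with x | x
  · refine ⟨{Sum.inr (Sum.inl x), Sum.inr (Sum.inl (nx x)), Sum.inr (Sum.inr (t x.2, x.2))},
      card3 _ _ _, fun j h => absurd rfl h, ?_⟩
    rintro (y | y) h
    · rcases Us_row x y h with h1 | h1
      · simp [h1]
      · simp [h1.1]
    · change -(mid s t z x y) ≠ 0 at h
      unfold mid at h
      split_ifs at h with h1
      · have : y = (t x.2, x.2) := Prod.ext h1.2.2.symm h1.1.symm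
        simp [this]
      · exact absurd neg_zero h
  · refine ⟨{Sum.inr (Sum.inr x), Sum.inr (Sum.inr (nx x)), Sum.inl x.1}, card3 _ _ _, ?_, ?_⟩
    · intro j h
      change Ss id m x j ≠ 0 at h
      unfold Ss at h
      split_ifs at h with h1
      · have : x.1 = j := h1.1
        simp [this]
      · exact absurd rfl h
    · rintro (y | y) h
      · exact absurd rfl h
      · rcases Us_row x y h with h1 | h1
        · simp [h1]
        · simp [h1.1]

/-- columns of the right part -/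
theorem QU_col (y : XC ι κ m) : ∃ T : Finset (ι ⊕ XC ι κ m), T.card ≤ 3 ∧
    (∀ i, QC G ι κ m i y ≠ 0 → Sum.inl i ∈ T) ∧
    ∀ x, UC s t z x y ≠ 0 → Sum.inr x ∈ T := by
  classical
  rcases y with y | y
  · refine ⟨{Sum.inr (Sum.inl y), Sum.inr (Sum.inl (pv y)), Sum.inl y.1}, card3 _ _ _, ?_, ?_⟩
    · intro i h
      change Qs id (fun _ => 1) m i y ≠ 0 at h
      unfold Qs at h
      split_ifs at h with h1
      · have : y.1 = i := h1.1
        simp [this]
      · exact absurd rfl h
    · rintro (x | x) h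
      · rcases Us_col x y h with h1 | h1
        · simp [h1]
        · simp [h1.1]
      · exact absurd rfl h
  · refine ⟨{Sum.inr (Sum.inr y), Sum.inr (Sum.inr (pv y)), Sum.inr (Sum.inl (s y.2, y.2))},
      card3 _ _ _, fun i h => absurd rfl h, ?_⟩
    rintro (x | x) h
    · change -(mid s t z x y) ≠ 0 at h
      unfold mid at h
      split_ifs at h with h1
      · have : x = (s y.2, y.2) := Prod.ext (by rw [← h1.1]; exact h1.2.1.symm) h1.1
        simp [this]
      · exact absurd neg_zero h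
    · rcases Us_col x y h with h1 | h1
      · simp [h1]
      · simp [h1.1]

theorem mono_ZC (hz : ∀ e, Mono (z e)) (x : ι ⊕ XC ι κ m) (y : κ ⊕ XC ι κ m) :
    Mono (ZC s t z x y) := by
  rcases x with x | x <;> rcases y with y | y
  · exact mono_zero
  · exact mono_QC x y
  · exact mono_SC x y
  · exact mono_UC s t z hz x y

theorem ZC_row (hm : 1 ≤ m) (x : ι ⊕ XC ι κ m) : ∃ T : Finset (κ ⊕ XC ι κ m), T.card ≤ 3 ∧
    ∀ y, ZC s t z x y ≠ 0 → y ∈ T := by
  classical
  rcases x with x | x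
  · refine ⟨{Sum.inr (Sum.inl (x, ⟨0, hm⟩))}, by simp, ?_⟩
    rintro (y | y) h
    · exact absurd rfl h
    · rw [QC_row x hm y h]
      simp
  · obtain ⟨T, h1, h2, h3⟩ := US_row s t z x
    refine ⟨T, h1, ?_⟩
    rintro (y | y) h
    · exact h2 y h
    · exact h3 y h

theorem ZC_col (hm : 1 ≤ m) (y : κ ⊕ XC ι κ m) : ∃ T : Finset (ι ⊕ XC ι κ m), T.card ≤ 3 ∧
    ∀ x, ZC s t z x y ≠ 0 → x ∈ T := by
  classical
  rcases y with y | y
  · refine ⟨{Sum.inr (Sum.inr (y, ⟨m - 1, by omega⟩))}, by simp, ?_⟩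
    rintro (x | x) h
    · exact absurd rfl h
    · rw [SC_col y hm x h]
      simp
  · obtain ⟨T, h1, h2, h3⟩ := QU_col s t z y
    refine ⟨T, h1, ?_⟩
    rintro (x | x) h
    · exact h2 x h
    · exact h3 x h

end Pool.Agent.Q181.LR
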