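import Pool.Agent.Q181.LR.Chain
import Pool.Agent.Q181.LW.Base

set_option autoImplicit false
set_option linter.unusedSectionVars false

/-! Every matrix over a group ring is stably equivalent to matrices of norm close to `3 / √2` and of
small size. -/

namespace Pool.Agent.Q181.LR

open Matrix TH57.Thr
open Pool.Agent.Q181.LW (Mono mono_zero mono_one mono_neg LB exists_NS)

variable {G : Type} [Group G]

/-- Every matrix is a sum of edges. -/
theorem exists_edges {ι κ : Type} [Fintype ι] [DecidableEq ι] [Fintype κ] [DecidableEq κ]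
    (A : Matrix ι κ (MonoidAlgebra ℤ G)) :
    ∃ (E : Type) (_ : Fintype E) (s : E → ι) (t : E → κ) (z : E → MonoidAlgebra ℤ G),
      IsSum s t z A ∧ ∀ e, Mono (z e) := by
  have hadd : ∀ A B : Matrix ι κ (MonoidAlgebra ℤ G),
      (∃ (E : Type) (_ : Fintype E) (s : E → ι) (t : E → κ) (z : E → MonoidAlgebra ℤ G),
        IsSum s t z A ∧ ∀ e, Mono (z e)) →
      (∃ (E : Type) (_ : Fintype E) (s : E → ι) (t : E → κ) (z : E → MonoidAlgebra ℤ G),
        IsSum s t z B ∧ ∀ e, Mono (z e)) →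
      ∃ (E : Type) (_ : Fintype E) (s : E → ι) (t : E → κ) (z : E → MonoidAlgebra ℤ G),
        IsSum s t z (A + B) ∧ ∀ e, Mono (z e) := by
    rintro A B ⟨E, i1, s, t, z, hA, hz⟩ ⟨E', i2, s', t', z', hB, hz'⟩
    refine ⟨E ⊕ E', inferInstance, Sum.elim s s', Sum.elim t t', Sum.elim z z', ?_, ?_⟩
    · unfold IsSum at hA hB ⊢
      rw [Fintype.sum_sum_type]
      simp only [Sum.elim_inl, Sum.elim_inr]
      rw [← hA, ← hB]
    · rintro (e | e)
      · exact hz e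
      · exact hz' e
  have hzero : ∃ (E : Type) (_ : Fintype E) (s : E → ι) (t : E → κ) (z : E → MonoidAlgebra ℤ G),
        IsSum s t z (0 : Matrix ι κ (MonoidAlgebra ℤ G)) ∧ ∀ e, Mono (z e) := by
    refine ⟨Fin 0, inferInstance, fun e => e.elim0, fun e => e.elim0, fun e => e.elim0, ?_,
      fun e => e.elim0⟩
    unfold IsSum
    simp
  induction A using Matrix.induction_on' with
  | h_zero => exact hzero
  | h_add A B hA hB => exact hadd A B hA hB
  | h_std_basis i j a =>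
    induction a using MonoidAlgebra.induction_linear with
    | zero =>
      rw [Matrix.single_zero]
      exact hzero
    | add a b ha hb =>
      rw [Matrix.single_add]
      exact hadd _ _ ha hb
    | single g n =>
      refine ⟨Fin n.natAbs, inferInstance, fun _ => i, fun _ => j,
        fun _ => MonoidAlgebra.single g n.sign, ?_, fun e => ?_⟩
      · unfold IsSum
        rw [Finset.sum_const, Finset.card_univ, Fintype.card_fin, Matrix.smul_single,
          MonoidAlgebra.smul_single, nsmul_eq_mul, mul_comm, Int.sign_mul_natAbs]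
      · have hn : n ≠ 0 := by
          rintro rfl
          exact e.elim0
        refine Or.inr ⟨g, ?_⟩
        rcases lt_or_gt_of_ne hn with h | h
        · right; rw [Int.sign_eq_neg_one_of_neg h]
        · left; rw [Int.sign_eq_one_of_pos h]

/-- Every matrix is a sum of edges. -/
theorem exists_edges_fin {ι κ : Type} [Fintype ι] [DecidableEq ι] [Fintype κ] [DecidableEq κ]
    (A : Matrix ι κ (MonoidAlgebra ℤ G)) :
    ∃ (m : ℕ) (s : Fin m → ι) (t : Fin m → κ) (z : Fin m → MonoidAlgebra ℤ G),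
      IsSum s t z A ∧ ∀ e, Mono (z e) := by
  obtain ⟨E, i1, s, t, z, hA, hz⟩ := exists_edges A
  let e := (Fintype.equivFin E).symm
  refine ⟨Fintype.card E, s ∘ e, t ∘ e, z ∘ e, ?_, fun k => hz _⟩
  unfold IsSum at hA ⊢
  rw [hA]
  exact (e.sum_comp (fun x => Matrix.single (s x) (t x) (z x))).symm

section eqv

variable {R : Type} [Ring R] {ι κ X Y : Type} [Fintype ι] [DecidableEq ι] [Fintype κ]
  [DecidableEq κ] [Fintype X] [DecidableEq X] [Fintype Y] [DecidableEq Y]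

/-- `B` is equivalent to `A ⊕ 1`. -/
def Eqv (A : Matrix ι κ R) (B : Matrix (ι ⊕ X) (κ ⊕ X) R) : Prop :=
  ∃ (P : (Matrix (ι ⊕ X) (ι ⊕ X) R)ˣ) (P' : (Matrix (κ ⊕ X) (κ ⊕ X) R)ˣ),
    B = P.val * (fromBlocks A 0 0 1 : Matrix (ι ⊕ X) (κ ⊕ X) R) * P'.val

theorem eqv_dil (A : Matrix ι κ R) (Q : Matrix ι X R) (S : Matrix X κ R) (U V : Matrix X X R)
    (hVU : V * U = 1) (hUV : U * V = 1) (hA : A = -(Q * V * S)) :
    Eqv A (fromBlocks 0 Q S U) := by
  refine ⟨⟨fromBlocks 1 (Q * V) 0 1, fromBlocks 1 (-(Q * V)) 0 1, ?_, ?_⟩,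
    ⟨fromBlocks 1 0 S U, fromBlocks 1 0 (-(V * S)) V, ?_, ?_⟩, ?_⟩
  · rw [fromBlocks_multiply, ← fromBlocks_one]
    simp
  · rw [fromBlocks_multiply, ← fromBlocks_one]
    simp
  · rw [fromBlocks_multiply, ← fromBlocks_one]
    simp only [Matrix.one_mul, Matrix.mul_zero, Matrix.zero_mul, Matrix.mul_one, add_zero,
      zero_add, hUV, Matrix.mul_neg, neg_zero]
    rw [← Matrix.mul_assoc, hUV, Matrix.one_mul, add_neg_cancel]
  · rw [fromBlocks_multiply, ← fromBlocks_one]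
    simp only [Matrix.one_mul, Matrix.mul_zero, Matrix.zero_mul, Matrix.mul_one, add_zero,
      zero_add, hVU]
    rw [neg_add_cancel]
  · change _ = fromBlocks 1 (Q * V) 0 1 * (fromBlocks A 0 0 1 : Matrix (ι ⊕ X) (κ ⊕ X) R)
      * fromBlocks 1 0 S U
    rw [fromBlocks_multiply, fromBlocks_multiply]
    simp only [Matrix.one_mul, Matrix.mul_zero, Matrix.zero_mul, Matrix.mul_one, add_zero,
      zero_add]
    rw [hA, Matrix.mul_assoc Q V U, hVU, Matrix.mul_one, neg_add_cancel]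

theorem eqv_trans (A : Matrix ι κ R) (B : Matrix (ι ⊕ X) (κ ⊕ X) R)
    (D : Matrix ((ι ⊕ X) ⊕ Y) ((κ ⊕ X) ⊕ Y) R) (h1 : Eqv A B) (h2 : Eqv B D) :
    Eqv A (D.submatrix (Equiv.sumAssoc ι X Y).symm (Equiv.sumAssoc κ X Y).symm) := by
  obtain ⟨P, P', rfl⟩ := h1
  obtain ⟨Q, Q', rfl⟩ := h2
  refine ⟨Units.map (re (Equiv.sumAssoc ι X Y).symm) (Q * Units.map (stm Y) P),
    Units.map (re (Equiv.sumAssoc κ X Y).symm) (Units.map (stm Y) P' * Q'), ?_⟩
  have h3 : (fromBlocks A 0 0 1 : Matrix (ι ⊕ (X ⊕ Y)) (κ ⊕ (X ⊕ Y)) R)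
      = (fromBlocks (fromBlocks A 0 0 (1 : Matrix X X R)) 0 0 (1 : Matrix Y Y R)).submatrix
        (Equiv.sumAssoc ι X Y).symm (Equiv.sumAssoc κ X Y).symm := by
    ext1 i j
    rcases i with i | i | i <;> rcases j with j | j | j <;> simp [Matrix.one_apply]
  have h4 : (fromBlocks (P.val * fromBlocks A 0 0 (1 : Matrix X X R) * P'.val) 0 0
        (1 : Matrix Y Y R))
      = (fromBlocks P.val 0 0 1 : Matrix ((ι ⊕ X) ⊕ Y) ((ι ⊕ X) ⊕ Y) R)
        * (fromBlocks (fromBlocks A 0 0 (1 : Matrix X X R)) 0 0 (1 : Matrix Y Y R) :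
          Matrix ((ι ⊕ X) ⊕ Y) ((κ ⊕ X) ⊕ Y) R)
        * (fromBlocks P'.val 0 0 1 : Matrix ((κ ⊕ X) ⊕ Y) ((κ ⊕ X) ⊕ Y) R) := by
    rw [fromBlocks_multiply, fromBlocks_multiply]
    simp
  rw [h4, h3]
  change _ = (Q.val * (fromBlocks P.val 0 0 1 :
      Matrix ((ι ⊕ X) ⊕ Y) ((ι ⊕ X) ⊕ Y) R)).submatrix (Equiv.sumAssoc ι X Y).symm
      (Equiv.sumAssoc ι X Y).symm * _ * ((fromBlocks P'.val 0 0 1 :
      Matrix ((κ ⊕ X) ⊕ Y) ((κ ⊕ X) ⊕ Y) R) * Q'.val).submatrix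
      (Equiv.sumAssoc κ X Y).symm (Equiv.sumAssoc κ X Y).symm
  rw [Matrix.submatrix_mul_equiv, Matrix.submatrix_mul_equiv]
  simp only [Matrix.mul_assoc]

theorem eqv_re (A : Matrix ι κ R) (B : Matrix (ι ⊕ X) (κ ⊕ X) R) (e : Y ≃ X) (h : Eqv A B) :
    Eqv A (B.submatrix (Equiv.sumCongr (Equiv.refl ι) e) (Equiv.sumCongr (Equiv.refl κ) e)) := by
  obtain ⟨P, P', rfl⟩ := h
  refine ⟨Units.map (re (Equiv.sumCongr (Equiv.refl ι) e)) P,
    Units.map (re (Equiv.sumCongr (Equiv.refl κ) e)) P', ?_⟩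
  have h3 : (fromBlocks A 0 0 1 : Matrix (ι ⊕ Y) (κ ⊕ Y) R)
      = (fromBlocks A 0 0 (1 : Matrix X X R)).submatrix
        (Equiv.sumCongr (Equiv.refl ι) e) (Equiv.sumCongr (Equiv.refl κ) e) := by
    ext1 i j
    rcases i with i | i <;> rcases j with j | j <;> simp [Matrix.one_apply]
  rw [h3]
  change _ = P.val.submatrix (Equiv.sumCongr (Equiv.refl ι) e)
      (Equiv.sumCongr (Equiv.refl ι) e) * _ * P'.val.submatrix
      (Equiv.sumCongr (Equiv.refl κ) e) (Equiv.sumCongr (Equiv.refl κ) e)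
  rw [Matrix.submatrix_mul_equiv, Matrix.submatrix_mul_equiv]

end eqv

section low

variable {ι κ X μ ν : Type} [Fintype ι] [DecidableEq ι] [Fintype κ] [DecidableEq κ] [Fintype X]
  [DecidableEq X] [Fintype μ] [DecidableEq μ] [Fintype ν] [DecidableEq ν]

theorem normSq_comp_equiv (e : μ ≃ ι) (x : ι → MonoidAlgebra ℝ G) :
    normSq (x ∘ e) = normSq x := by
  rw [normSq_eq, normSq_eq]
  exact Fintype.sum_equiv e _ _ fun _ => rfl

theorem vecMul_sub (e : μ ≃ ι) (f : ν ≃ κ) (A : Matrix ι κ (MonoidAlgebra ℤ G))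
    (x : μ → MonoidAlgebra ℝ G) :
    x ᵥ* toReal (A.submatrix e f) = ((x ∘ e.symm) ᵥ* toReal A) ∘ f := by
  funext j
  simp only [Matrix.vecMul, dotProduct, Function.comp]
  refine Fintype.sum_equiv e _ _ fun i => ?_
  simp [toReal]

theorem NormLE_sub (e : μ ≃ ι) (f : ν ≃ κ) (A : Matrix ι κ (MonoidAlgebra ℤ G)) (c : ℝ)
    (hA : NormLE A c) : NormLE (A.submatrix e f) c := by
  intro x
  rw [vecMul_sub, normSq_comp_equiv, ← normSq_comp_equiv e.symm x]
  exact hA _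

theorem LB_sub (e : μ ≃ ι) (f : ν ≃ κ) (A : Matrix ι κ (MonoidAlgebra ℤ G)) (D : ℝ)
    (hA : LB A D) : LB (A.submatrix e f) D := by
  intro x
  rw [vecMul_sub, normSq_comp_equiv, ← normSq_comp_equiv e.symm x]
  exact hA _

theorem eqv_LB (A : Matrix ι κ (MonoidAlgebra ℤ G))
    (B : Matrix (ι ⊕ X) (κ ⊕ X) (MonoidAlgebra ℤ G)) (h : Eqv A B) :
    ∃ C : ℕ, ∀ D : ℝ, 0 ≤ D → LB A D → LB B (C * (D + 1)) := by
  obtain ⟨P, P', rfl⟩ := h
  obtain ⟨w, hw0, hw⟩ := exists_NS P⁻¹.val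
  obtain ⟨v, hv0, hv⟩ := exists_NS P'⁻¹.val
  obtain ⟨C, hC⟩ := exists_nat_ge (w * v)
  refine ⟨C, fun D hD hA x => ?_⟩
  have e1 : x = (x ᵥ* toReal P.val) ᵥ* toReal P⁻¹.val := by
    rw [Matrix.vecMul_vecMul, ← toReal_mul, P.mul_inv, toReal_one, Matrix.vecMul_one]
  set y := x ᵥ* toReal P.val with hy
  set u := y ᵥ* toReal (fromBlocks A 0 0 1 : Matrix (ι ⊕ X) (κ ⊕ X) (MonoidAlgebra ℤ G)) with hu
  have e2 : x ᵥ* toReal (P.val * (fromBlocks A 0 0 1 :
      Matrix (ι ⊕ X) (κ ⊕ X) (MonoidAlgebra ℤ G)) * P'.val) = u ᵥ* toReal P'.val := by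
    rw [toReal_mul, toReal_mul, ← Matrix.vecMul_vecMul, ← Matrix.vecMul_vecMul]
  have e3 : u = (u ᵥ* toReal P'.val) ᵥ* toReal P'⁻¹.val := by
    rw [Matrix.vecMul_vecMul, ← toReal_mul, P'.mul_inv, toReal_one, Matrix.vecMul_one]
  have b1 : normSq x ≤ w * normSq y := by
    calc normSq x = normSq (y ᵥ* toReal P⁻¹.val) := by rw [← e1]
      _ ≤ _ := hw y
  have b3 : normSq u ≤ v * normSq (u ᵥ* toReal P'.val) := by
    calc normSq u = normSq ((u ᵥ* toReal P'.val) ᵥ* toReal P'⁻¹.val) := by rw [← e3]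
      _ ≤ _ := hv _
  have b2 : normSq y ≤ (D + 1) * normSq u := by
    have h1 : y = Sum.elim (y ∘ Sum.inl) (y ∘ Sum.inr) := (Sum.elim_comp_inl_inr y).symm
    have h2 : u = Sum.elim ((y ∘ Sum.inl) ᵥ* toReal A) (y ∘ Sum.inr) := by
      rw [hu, toReal_fromBlocks, toReal_zero, toReal_zero, toReal_one]
      conv_lhs => rw [h1]
      rw [Matrix.vecMul_fromBlocks]
      simp
    rw [h2, h1, normSq_elim, normSq_elim]
    have h3 := hA (y ∘ Sum.inl)
    have h4 := normSq_nonneg ((y ∘ Sum.inl) ᵥ* toReal A)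
    have h5 := normSq_nonneg (y ∘ Sum.inr)
    simp only [Sum.elim_comp_inl, Sum.elim_comp_inr]
    nlinarith
  rw [e2]
  have n1 := normSq_nonneg y
  have n2 := normSq_nonneg u
  have n3 := normSq_nonneg (u ᵥ* toReal P'.val)
  calc normSq x ≤ w * normSq y := b1
    _ ≤ w * ((D + 1) * normSq u) := mul_le_mul_of_nonneg_left b2 hw0
    _ ≤ w * ((D + 1) * (v * normSq (u ᵥ* toReal P'.val))) :=
        mul_le_mul_of_nonneg_left (mul_le_mul_of_nonneg_left b3 (by linarith)) hw0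
    _ = (w * v) * ((D + 1) * normSq (u ᵥ* toReal P'.val)) := by ring
    _ ≤ C * ((D + 1) * normSq (u ᵥ* toReal P'.val)) :=
        mul_le_mul_of_nonneg_right hC (mul_nonneg (by linarith) n3)
    _ = _ := by ring

end low

end Pool.Agent.Q181.LR
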