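import Pool.Agent.Q181.LR.Up
import Pool.Agent.TH6.LF.Form1

set_option autoImplicit false
set_option linter.unusedSectionVars false

/-! Dilations of quadratic forms. -/

namespace Pool.Agent.Q181.LR

open Matrix TH57.Thr TH6.LF
open Pool.Agent.Q181.LW (Mono mono_zero mono_one mono_neg schur_test LB exists_NS)

variable {G : Type} [Group G] {κ X Y : Type} [Fintype κ] [DecidableEq κ] [Fintype X]
  [DecidableEq X] [Fintype Y] [DecidableEq Y]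

/-- the dilated form -/
noncomputable def FF (Q : Matrix κ X (MonoidAlgebra ℤ G)) (S : Matrix X κ (MonoidAlgebra ℤ G))
    (U : Matrix X X (MonoidAlgebra ℤ G)) :
    Matrix (κ ⊕ (X ⊕ X)) (κ ⊕ (X ⊕ X)) (MonoidAlgebra ℤ G) :=
  fromBlocks 0 (fromCols 0 Q) (fromRows S 0) (fromBlocks 0 U 0 0)

/-- `ψ'` is isometric to `ψ` plus a hyperbolic form -/
def FEqv (ψ : Matrix κ κ (MonoidAlgebra ℤ G))
    (ψ' : Matrix (κ ⊕ (X ⊕ X)) (κ ⊕ (X ⊕ X)) (MonoidAlgebra ℤ G)) : Prop :=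
  ∃ P : (Matrix (κ ⊕ (X ⊕ X)) (κ ⊕ (X ⊕ X)) (MonoidAlgebra ℤ G))ˣ,
    P ∈ commutator (Matrix (κ ⊕ (X ⊕ X)) (κ ⊕ (X ⊕ X)) (MonoidAlgebra ℤ G))ˣ ∧
    ψ' = P.val * addHyp X ψ * adj P.val

theorem feqv_dil (ψ : Matrix κ κ (MonoidAlgebra ℤ G)) (Q : Matrix κ X (MonoidAlgebra ℤ G))
    (S : Matrix X κ (MonoidAlgebra ℤ G)) (U V : Matrix X X (MonoidAlgebra ℤ G))
    (hU : U ∈ El (R := MonoidAlgebra ℤ G) X)
    (hUV : U * V = 1) (hψ : ψ = -(Q * V * S))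
    (hcard : 3 ≤ Fintype.card (κ ⊕ (X ⊕ X))) :
    FEqv ψ (FF Q S U) := by
  set P : Matrix (κ ⊕ (X ⊕ X)) (κ ⊕ (X ⊕ X)) (MonoidAlgebra ℤ G) :=
    fromBlocks 1 (fromCols Q (adj (V * S))) 0 (fromBlocks U 0 0 1) with hP
  have hPE : P ∈ El (R := MonoidAlgebra ℤ G) (κ ⊕ (X ⊕ X)) := by
    have e : P = fromBlocks (1 : Matrix κ κ (MonoidAlgebra ℤ G)) 0 0 (fromBlocks U 0 0 1)
        * (1 + fromBlocks 0 (fromCols Q (adj (V * S))) 0 0) := by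
      rw [hP, ← Matrix.fromBlocks_one, Matrix.fromBlocks_add, Matrix.fromBlocks_multiply]
      simp
    rw [e]
    refine mul_mem (el_ext' _ (el_ext U hU))
      (el_unip (Finset.univ.filter fun v : κ ⊕ (X ⊕ X) => v.isLeft) _ ?_)
    rintro (i | i) (j | j) h <;> simp at h ⊢
  obtain ⟨u, hu1, hu2⟩ := comm_of_El hcard P hPE
  refine ⟨u, hu2, ?_⟩
  rw [hu1, hP, FF, addHyp, adj_fromBlocks, adj_fromBlocks, adj_fromCols, adj_adj, adj_one,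
    adj_zero, adj_zero, adj_one, Matrix.fromBlocks_multiply, Matrix.fromBlocks_multiply]
  have e1 : (fromCols Q (adj (V * S)) : Matrix κ (X ⊕ X) (MonoidAlgebra ℤ G))
      * (fromBlocks (0 : Matrix X X (MonoidAlgebra ℤ G)) (1 : Matrix X X (MonoidAlgebra ℤ G))
        (0 : Matrix X X (MonoidAlgebra ℤ G)) (0 : Matrix X X (MonoidAlgebra ℤ G))) =
      fromCols 0 Q := by
    rw [Matrix.fromCols_mul_fromBlocks]; simp
  have e2 : fromBlocks U (0 : Matrix X X (MonoidAlgebra ℤ G))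
      (0 : Matrix X X (MonoidAlgebra ℤ G)) (1 : Matrix X X (MonoidAlgebra ℤ G))
      * fromBlocks (0 : Matrix X X (MonoidAlgebra ℤ G)) (1 : Matrix X X (MonoidAlgebra ℤ G))
        (0 : Matrix X X (MonoidAlgebra ℤ G)) (0 : Matrix X X (MonoidAlgebra ℤ G))
      = fromBlocks 0 U 0 0 := by
    rw [Matrix.fromBlocks_multiply]; simp
  simp only [Matrix.one_mul, Matrix.mul_zero, Matrix.zero_mul, add_zero, zero_add, e1, e2,
    Matrix.mul_one]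
  have e3 : fromCols (0 : Matrix κ X (MonoidAlgebra ℤ G)) Q
      * fromRows (adj Q) (V * S) = Q * V * S := by
    rw [Matrix.fromCols_mul_fromRows]; simp [Matrix.mul_assoc]
  have e4 : fromCols (0 : Matrix κ X (MonoidAlgebra ℤ G)) Q
      * fromBlocks (adj U) (0 : Matrix X X (MonoidAlgebra ℤ G))
        (0 : Matrix X X (MonoidAlgebra ℤ G)) (1 : Matrix X X (MonoidAlgebra ℤ G))
      = fromCols 0 Q := by
    rw [Matrix.fromCols_mul_fromBlocks]; simp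
  have e5 : fromBlocks (0 : Matrix X X (MonoidAlgebra ℤ G)) U
      (0 : Matrix X X (MonoidAlgebra ℤ G)) (0 : Matrix X X (MonoidAlgebra ℤ G))
      * fromRows (adj Q) (V * S) = fromRows S 0 := by
    rw [Matrix.fromBlocks_mul_fromRows]
    simp only [Matrix.zero_mul, zero_add, ← Matrix.mul_assoc, hUV, Matrix.one_mul]
  have e6 : fromBlocks (0 : Matrix X X (MonoidAlgebra ℤ G)) U
      (0 : Matrix X X (MonoidAlgebra ℤ G)) (0 : Matrix X X (MonoidAlgebra ℤ G))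
      * fromBlocks (adj U) (0 : Matrix X X (MonoidAlgebra ℤ G))
      (0 : Matrix X X (MonoidAlgebra ℤ G)) (1 : Matrix X X (MonoidAlgebra ℤ G))
      = fromBlocks 0 U 0 0 := by
    rw [Matrix.fromBlocks_multiply]; simp
  rw [e3, e4, e5, e6, hψ, neg_add_cancel]

/-- the reindexing -/
def aE (κ X Y : Type) : κ ⊕ ((X ⊕ Y) ⊕ (X ⊕ Y)) ≃ (κ ⊕ (X ⊕ X)) ⊕ (Y ⊕ Y) :=
  (Equiv.sumCongr (Equiv.refl κ) (Equiv.sumSumSumComm X Y X Y)).trans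
    (Equiv.sumAssoc κ (X ⊕ X) (Y ⊕ Y)).symm

theorem addHyp_addHyp (ψ : Matrix κ κ (MonoidAlgebra ℤ G)) :
    (addHyp Y (addHyp X ψ)).submatrix (aE κ X Y) (aE κ X Y) = addHyp (X ⊕ Y) ψ := by
  ext1 i j
  rcases i with i | (i | i) | (i | i) <;> rcases j with j | (j | j) | (j | j) <;>
    simp [addHyp, aE, Matrix.one_apply]

theorem feqv_trans (ψ : Matrix κ κ (MonoidAlgebra ℤ G))
    (ψ₁ : Matrix (κ ⊕ (X ⊕ X)) (κ ⊕ (X ⊕ X)) (MonoidAlgebra ℤ G))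
    (ψ₂ : Matrix ((κ ⊕ (X ⊕ X)) ⊕ (Y ⊕ Y)) ((κ ⊕ (X ⊕ X)) ⊕ (Y ⊕ Y)) (MonoidAlgebra ℤ G))
    (h1 : FEqv ψ ψ₁) (h2 : FEqv ψ₁ ψ₂) :
    FEqv ψ (ψ₂.submatrix (aE κ X Y) (aE κ X Y)) := by
  obtain ⟨P, hP, rfl⟩ := h1
  obtain ⟨Q, hQ, rfl⟩ := h2
  have hst : Units.map (stm (R := MonoidAlgebra ℤ G) (Y ⊕ Y)) P
      ∈ commutator (Matrix ((κ ⊕ (X ⊕ X)) ⊕ (Y ⊕ Y)) ((κ ⊕ (X ⊕ X)) ⊕ (Y ⊕ Y))
        (MonoidAlgebra ℤ G))ˣ := by
    have h3 : (commutator (Matrix (κ ⊕ (X ⊕ X)) (κ ⊕ (X ⊕ X)) (MonoidAlgebra ℤ G))ˣ).map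
        (Units.map (stm (R := MonoidAlgebra ℤ G) (Y ⊕ Y)))
        ≤ commutator (Matrix ((κ ⊕ (X ⊕ X)) ⊕ (Y ⊕ Y)) ((κ ⊕ (X ⊕ X)) ⊕ (Y ⊕ Y))
          (MonoidAlgebra ℤ G))ˣ := by
      rw [commutator_def, Subgroup.map_commutator]
      exact Subgroup.commutator_mono le_top le_top
    exact h3 (Subgroup.mem_map_of_mem _ hP)
  refine ⟨Units.map (re (aE κ X Y)) (Q * Units.map (stm (Y ⊕ Y)) P),
    comm_re _ _ (mul_mem hQ hst), ?_⟩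
  have h4 : addHyp Y (P.val * addHyp X ψ * adj P.val)
      = (fromBlocks P.val 0 0 1 : Matrix ((κ ⊕ (X ⊕ X)) ⊕ (Y ⊕ Y)) ((κ ⊕ (X ⊕ X)) ⊕ (Y ⊕ Y))
        (MonoidAlgebra ℤ G)) * addHyp Y (addHyp X ψ)
        * adj (fromBlocks P.val 0 0 1 : Matrix ((κ ⊕ (X ⊕ X)) ⊕ (Y ⊕ Y))
          ((κ ⊕ (X ⊕ X)) ⊕ (Y ⊕ Y)) (MonoidAlgebra ℤ G)) := by
    rw [adj_fromBlocks, adj_zero, adj_zero, adj_one]
    generalize addHyp X ψ = φ
    unfold addHyp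
    rw [fromBlocks_multiply, fromBlocks_multiply]
    simp
  rw [h4, ← addHyp_addHyp]
  change _ = (Q.val * (fromBlocks P.val 0 0 1 : Matrix ((κ ⊕ (X ⊕ X)) ⊕ (Y ⊕ Y))
      ((κ ⊕ (X ⊕ X)) ⊕ (Y ⊕ Y)) (MonoidAlgebra ℤ G))).submatrix (aE κ X Y) (aE κ X Y)
      * (addHyp Y (addHyp X ψ)).submatrix (aE κ X Y) (aE κ X Y)
      * adj ((Q.val * (fromBlocks P.val 0 0 1 : Matrix ((κ ⊕ (X ⊕ X)) ⊕ (Y ⊕ Y))
      ((κ ⊕ (X ⊕ X)) ⊕ (Y ⊕ Y)) (MonoidAlgebra ℤ G))).submatrix (aE κ X Y) (aE κ X Y))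
  rw [adj_submatrix, Matrix.submatrix_mul_equiv, Matrix.submatrix_mul_equiv, adj_mul]
  simp only [Matrix.mul_assoc]

theorem feqv_re (ψ : Matrix κ κ (MonoidAlgebra ℤ G))
    (ψ₁ : Matrix (κ ⊕ (X ⊕ X)) (κ ⊕ (X ⊕ X)) (MonoidAlgebra ℤ G)) (e : Y ≃ X)
    (h : FEqv ψ ψ₁) :
    FEqv ψ (ψ₁.submatrix (Equiv.sumCongr (Equiv.refl κ) (Equiv.sumCongr e e))
      (Equiv.sumCongr (Equiv.refl κ) (Equiv.sumCongr e e))) := by
  obtain ⟨P, hP, rfl⟩ := h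
  set f := Equiv.sumCongr (Equiv.refl κ) (Equiv.sumCongr e e) with hf
  refine ⟨Units.map (re f) P, comm_re _ _ hP, ?_⟩
  have h1 : (addHyp X ψ).submatrix f f = addHyp Y ψ := by
    ext1 i j
    rcases i with i | (i | i) <;> rcases j with j | (j | j) <;>
      simp [addHyp, hf, Matrix.one_apply]
  rw [← h1]
  change _ = P.val.submatrix f f * _ * adj (P.val.submatrix f f)
  rw [adj_submatrix, Matrix.submatrix_mul_equiv, Matrix.submatrix_mul_equiv]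

end Pool.Agent.Q181.LR
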