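import Pool.Agent.Q181.LR.Fn

set_option autoImplicit false
set_option linter.unusedSectionVars false

/-! Lower bounds for subdivided forms. -/

namespace Pool.Agent.Q181.LR

open Matrix TH57.Thr TH6.LF
open Pool.Agent.Q181.LW (Mono mono_zero mono_one mono_neg schur_test LB exists_NS normSq_sub_le)

variable {G : Type} [Group G]

theorem normSq_add_three {ι : Type} [Fintype ι] (x y w : ι → MonoidAlgebra ℝ G) :
    normSq (x - y - w) ≤ 4 * normSq x + 4 * normSq y + 2 * normSq w := by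
  have h1 := normSq_sub_le (x - y) w
  have h2 := normSq_sub_le x y
  linarith

variable {κ E : Type} [Fintype κ] [DecidableEq κ] [Fintype E] [DecidableEq E]
  (s t : E → κ) (z : E → MonoidAlgebra ℤ G) (L : ℕ) (ε : ℤ) (hε : ε = 1 ∨ ε = -1)
  (hL : 1 ≤ L)
  (hs : ∀ i, ((Finset.univ.filter fun e => s e = i).card : ℝ) ≤ 3)
  (ht : ∀ i, ((Finset.univ.filter fun e => t e = i).card : ℝ) ≤ 3)

theorem vecMul_zsmul' {ι μ : Type} [Fintype ι] (x : ι → MonoidAlgebra ℝ G)
    (M : Matrix ι μ (MonoidAlgebra ℝ G)) : x ᵥ* (ε • M) = ε • (x ᵥ* M) := by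
  funext j
  rw [Matrix.vecMul, Pi.smul_apply, Matrix.vecMul, dotProduct, dotProduct, Finset.smul_sum]
  exact Finset.sum_congr rfl fun i _ => by rw [Matrix.smul_apply, mul_smul_comm]

theorem toReal_zsmul' {ι μ : Type} (M : Matrix ι μ (MonoidAlgebra ℤ G)) :
    toReal (ε • M) = ε • toReal M := by
  ext1 i j
  exact map_zsmul (MonoidAlgebra.mapRingHom G (Int.castRingHom ℝ)) ε (M i j)

include hε in
theorem eps_eps {ι : Type} (x : ι → MonoidAlgebra ℝ G) : ε • ε • x = x := by
  rcases hε with rfl | rfl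
  · rw [one_smul, one_smul]
  · rw [smul_smul]
    norm_num

include hε in
theorem normSq_eps {ι : Type} [Fintype ι] (x : ι → MonoidAlgebra ℝ G) :
    normSq (ε • x) = normSq x := by
  rcases hε with rfl | rfl
  · rw [one_smul]
  · rw [neg_smul, one_smul, normSq_neg]

include hε hL hs ht in
/-- **The inverse of the subdivided form.** -/
theorem LB_Fs (hz : ∀ e, Mono (z e)) (ψ : Matrix κ κ (MonoidAlgebra ℤ G)) (hψ : IsSum s t z ψ)
    (D : ℝ) (hD0 : 0 ≤ D) (hD : LB (ψ + ε • adj ψ) D) :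
    LB (Fs s t z L + ε • adj (Fs s t z L)) ((156 * D + 2) * L ^ 2) := by
  intro y
  set Q := (Qs s z L : Matrix κ (E × Fin L) (MonoidAlgebra ℤ G)) with hQ
  set S := (Ss t L : Matrix (E × Fin L) κ (MonoidAlgebra ℤ G)) with hS
  set U := (Us L : Matrix (E × Fin L) (E × Fin L) (MonoidAlgebra ℤ G)) with hU
  set V := (Vs L : Matrix (E × Fin L) (E × Fin L) (MonoidAlgebra ℤ G)) with hV
  have hUV : U * V = 1 := UsVs L
  have hVU : V * U = 1 := VsUs L
  have hQV : Q * V = Qv s z L := QsVs s z L hL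
  have hVS : V * S = Sv t L := VsSs t L hL
  have hQVS : Q * V * S = -ψ := by
    have := QVS s t z L hL ψ hψ
    rw [this, neg_neg]
  set yk := y ∘ Sum.inl with hyk
  set yr := y ∘ Sum.inr ∘ Sum.inl with hyr
  set yc := y ∘ Sum.inr ∘ Sum.inr with hyc
  have hy : y = Sum.elim yk (Sum.elim yr yc) := by
    funext i
    rcases i with i | (i | i) <;> rfl
  set zk := yr ᵥ* toReal S + ε • (yc ᵥ* toReal (adj Q)) with hzk
  set zr := ε • (yk ᵥ* toReal (adj S) + yc ᵥ* toReal (adj U)) with hzr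
  set zc := yk ᵥ* toReal Q + yr ᵥ* toReal U with hzc
  have h1 : y ᵥ* toReal (Fs s t z L + ε • adj (Fs s t z L))
      = Sum.elim zk (Sum.elim zr zc) := by
    rw [Fs_add]
    have e1 : toReal (fromBlocks (0 : Matrix κ κ (MonoidAlgebra ℤ G))
        (fromCols (ε • adj S) Q) (fromRows S (ε • adj Q)) (fromBlocks 0 U (ε • adj U) 0))
        = fromBlocks 0 (fromCols (ε • toReal (adj S)) (toReal Q))
          (fromRows (toReal S) (ε • toReal (adj Q)))
          (fromBlocks 0 (toReal U) (ε • toReal (adj U)) 0) := by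
      simp only [toReal_fromBlocks, toReal_zero]
      congr 1
      · ext1 i j
        rcases j with j | j
        · exact congrFun (congrFun (toReal_zsmul' ε (adj S)) i) j
        · rfl
      · ext1 i j
        rcases i with i | i
        · rfl
        · exact congrFun (congrFun (toReal_zsmul' ε (adj Q)) i) j
      · congr 1
        exact toReal_zsmul' ε (adj U)
    rw [← hS, ← hQ, ← hU, e1]
    conv_lhs => rw [hy]
    rw [Matrix.vecMul_fromBlocks]
    simp only [Sum.elim_comp_inl, Sum.elim_comp_inr]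
    rw [Matrix.vecMul_zero, zero_add, Matrix.sumElim_vecMul_fromRows,
      Matrix.vecMul_fromCols, Matrix.vecMul_fromBlocks]
    simp only [Sum.elim_comp_inl, Sum.elim_comp_inr, vecMul_zsmul', Matrix.vecMul_zero, zero_add,
      add_zero]
    congr 1
    funext j
    rcases j with j | j
    · simp [hzr, smul_add]
    · simp [hzc]
  have h3 : yr = zc ᵥ* toReal V - yk ᵥ* toReal (Qv s z L) := by
    rw [hzc, Matrix.add_vecMul, Matrix.vecMul_vecMul, Matrix.vecMul_vecMul, ← toReal_mul,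
      ← toReal_mul, hUV, toReal_one, Matrix.vecMul_one, hQV]
    abel
  have hUV' : adj U * adj V = 1 := by rw [← adj_mul, hVU, adj_one]
  have h4 : yc = ε • (zr ᵥ* toReal (adj V)) - yk ᵥ* toReal (adj (Sv t L)) := by
    have e1 : adj S * adj V = adj (Sv t L : Matrix (E × Fin L) κ (MonoidAlgebra ℤ G)) := by
      rw [← adj_mul, hVS]
    have e2 : ε • (zr ᵥ* toReal (adj V)) = yk ᵥ* toReal (adj (Sv t L)) + yc := by
      have e3 : zr ᵥ* toReal (adj V) = ε • ((yk ᵥ* toReal (adj S) + yc ᵥ* toReal (adj U))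
          ᵥ* toReal (adj V)) := by
        rw [hzr]
        exact Matrix.smul_vecMul ε _ _
      rw [e3, eps_eps ε hε, Matrix.add_vecMul, Matrix.vecMul_vecMul, Matrix.vecMul_vecMul,
        ← toReal_mul, ← toReal_mul, hUV', toReal_one, Matrix.vecMul_one, e1]
    rw [e2]
    abel
  have h2 : yk ᵥ* toReal (ψ + ε • adj ψ)
      = zk - zc ᵥ* toReal (Sv t L) - zr ᵥ* toReal (adj (Qv s z L)) := by
    have e1 : zc ᵥ* toReal (Sv t L : Matrix (E × Fin L) κ (MonoidAlgebra ℤ G))
        = -(yk ᵥ* toReal ψ) + yr ᵥ* toReal S := by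
      rw [← hVS, toReal_mul, ← Matrix.vecMul_vecMul, hzc, Matrix.add_vecMul,
        Matrix.vecMul_vecMul, Matrix.vecMul_vecMul, ← toReal_mul, ← toReal_mul, hUV, toReal_one,
        Matrix.vecMul_one, Matrix.add_vecMul, Matrix.vecMul_vecMul, ← toReal_mul, hQVS,
        toReal_neg, Matrix.vecMul_neg]
    have e2 : zr ᵥ* toReal (adj (Qv s z L : Matrix κ (E × Fin L) (MonoidAlgebra ℤ G)))
        = ε • (-(yk ᵥ* toReal (adj ψ)) + yc ᵥ* toReal (adj Q)) := by
      have e4 : adj (Qv s z L : Matrix κ (E × Fin L) (MonoidAlgebra ℤ G)) = adj V * adj Q := by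
        rw [← adj_mul, hQV]
      have e5 : adj S * adj V * adj Q = -adj ψ := by
        rw [Matrix.mul_assoc, ← adj_mul, ← adj_mul, hQVS, adj_neg]
      have e6 : zr ᵥ* toReal (adj V * adj Q) = ε • ((yk ᵥ* toReal (adj S)
          + yc ᵥ* toReal (adj U)) ᵥ* toReal (adj V * adj Q)) := by
        rw [hzr]
        exact Matrix.smul_vecMul ε _ _
      rw [e4, e6, Matrix.add_vecMul, Matrix.vecMul_vecMul, Matrix.vecMul_vecMul,
        ← toReal_mul, ← toReal_mul, ← Matrix.mul_assoc, ← Matrix.mul_assoc, hUV', Matrix.one_mul,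
        e5, toReal_neg, Matrix.vecMul_neg]
    rw [e1, e2, hzk, toReal_add, Matrix.vecMul_add]
    rw [toReal_zsmul', vecMul_zsmul', smul_add, smul_neg]
    abel
  have hL1 : (1 : ℝ) ≤ L := by exact_mod_cast hL
  have n1 := normSq_nonneg zk
  have n2 := normSq_nonneg zr
  have n3 := normSq_nonneg zc
  have n4 := normSq_nonneg yk
  have NV : NS V (L * L) := NS_Vs L
  have NQ : NS (Qv s z L : Matrix κ (E × Fin L) (MonoidAlgebra ℤ G)) (3 * L * 1) :=
    NS_Qv s z L hs hz
  have NSv : NS (Sv t L : Matrix (E × Fin L) κ (MonoidAlgebra ℤ G)) (1 * (3 * L)) :=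
    NS_Sv t L ht
  have b1 : normSq (zc ᵥ* toReal (Sv t L)) ≤ 1 * (3 * L) * normSq zc := NSv zc
  have b2 : normSq (yk ᵥ* toReal (Qv s z L)) ≤ 3 * L * 1 * normSq yk := NQ yk
  have b3 : normSq (zc ᵥ* toReal V) ≤ L * L * normSq zc := NV zc
  have b4 : normSq (zr ᵥ* toReal (adj (Qv s z L))) ≤ 3 * L * 1 * normSq zr :=
    NS_adj _ _ (by positivity) NQ zr
  have b5 : normSq (yk ᵥ* toReal (adj (Sv t L))) ≤ 1 * (3 * L) * normSq yk :=
    NS_adj _ _ (by positivity) NSv yk
  have b6 : normSq (zr ᵥ* toReal (adj V)) ≤ L * L * normSq zr :=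
    NS_adj _ _ (by positivity) NV zr
  have c1 : normSq yk ≤ D * (4 * normSq zk + 4 * (3 * L * normSq zc) + 2 * (3 * L * normSq zr)) := by
    refine (hD yk).trans (mul_le_mul_of_nonneg_left ?_ hD0)
    rw [h2]
    refine (normSq_add_three _ _ _).trans ?_
    linarith
  have c2 : normSq yr ≤ 2 * (L * L * normSq zc) + 2 * (3 * L * normSq yk) := by
    have h5 := normSq_sub_le (zc ᵥ* toReal V) (yk ᵥ* toReal (Qv s z L))
    rw [← h3] at h5
    linarith
  have c3 : normSq yc ≤ 2 * (L * L * normSq zr) + 2 * (3 * L * normSq yk) := by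
    have h5 := normSq_sub_le (ε • (zr ᵥ* toReal (adj V))) (yk ᵥ* toReal (adj (Sv t L)))
    rw [← h4, normSq_eps ε hε] at h5
    linarith
  have c4 : normSq y = normSq yk + (normSq yr + normSq yc) := by
    rw [hy, normSq_elim, normSq_elim]
  have c5 : normSq (y ᵥ* toReal (Fs s t z L + ε • adj (Fs s t z L)))
      = normSq zk + (normSq zr + normSq zc) := by
    rw [h1, normSq_elim, normSq_elim]
  rw [c4, c5]
  set N := normSq zk + (normSq zr + normSq zc) with hN
  have hN0 : 0 ≤ N := by positivity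
  have d1 : normSq yk ≤ D * (12 * L) * N := by
    refine c1.trans ?_
    have : 4 * normSq zk + 4 * (3 * L * normSq zc) + 2 * (3 * L * normSq zr) ≤ (12 * L) * N := by
      rw [hN]; nlinarith
    calc D * (4 * normSq zk + 4 * (3 * L * normSq zc) + 2 * (3 * L * normSq zr))
        ≤ D * ((12 * L) * N) := mul_le_mul_of_nonneg_left this hD0
      _ = _ := by ring
  have d2 : normSq yk + (normSq yr + normSq yc) ≤ 13 * L * normSq yk
      + 2 * L ^ 2 * (normSq zr + normSq zc) := by nlinarith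
  have d3 : 13 * L * normSq yk ≤ 13 * L * (D * (12 * L) * N) :=
    mul_le_mul_of_nonneg_left d1 (by positivity)
  have d4 : 2 * (L : ℝ) ^ 2 * (normSq zr + normSq zc) ≤ 2 * L ^ 2 * N := by
    have : 0 ≤ (L : ℝ) ^ 2 * normSq zk := by positivity
    rw [hN]; nlinarith
  calc normSq yk + (normSq yr + normSq yc) ≤ 13 * L * (D * (12 * L) * N)
        + 2 * L ^ 2 * N := by linarith
    _ = (156 * D + 2) * L ^ 2 * N := by ring

end Pool.Agent.Q181.LR
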