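import Pool.Agent.Q181.LR.Fu
import Pool.Agent.Q181.LW.Law

set_option autoImplicit false
set_option linter.unusedSectionVars false

/-! The logarithmic law for quadratic forms. -/

namespace Pool.Agent.Q181.LR

open Matrix TH57.Thr TH6.LF
open Pool.Agent.Q181.LW (LB LB_of_inv normLE_of_LB noTripod_size noTripod_inv)

variable {Γ : Type} [Group Γ]

/-- Up to a change of basis by group elements and up to an even form, `ψ` is an orthogonal sum of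
forms over the group rings of cyclic subgroups, nonsingular ones if `ψ` is nonsingular. -/
def FromCyclic (ε : ℤ) {ι : Type} [Fintype ι] [DecidableEq ι]
    (ψ : Matrix ι ι (MonoidAlgebra ℤ Γ)) : Prop :=
  ∃ (ρ : ι → ι) (u : ι → Γ) (C : ι → Subgroup Γ)
    (θ : ∀ a, Matrix {i // ρ i = a} {i // ρ i = a} (MonoidAlgebra ℤ (C a)))
    (χ : Matrix ι ι (MonoidAlgebra ℤ Γ)),
    (∀ a, IsCyclic (C a)) ∧
    Dm u * ψ * adj (Dm u) = indSum ρ C θ + (χ - ε • adj χ) ∧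
    (IsUnit (ψ + ε • adj ψ) → ∀ a, IsUnit (θ a + ε • adj (θ a)))

/-- `ψ'` is `ψ` plus the hyperbolic form of rank `2 q`, up to an isometry in the commutator
subgroup. -/
def FormRep {n q : ℕ} (ψ : Matrix (Fin n) (Fin n) (MonoidAlgebra ℤ Γ))
    (ψ' : Matrix (Fin n ⊕ (Fin q ⊕ Fin q)) (Fin n ⊕ (Fin q ⊕ Fin q)) (MonoidAlgebra ℤ Γ)) : Prop :=
  ∃ P : (Matrix (Fin n ⊕ (Fin q ⊕ Fin q)) (Fin n ⊕ (Fin q ⊕ Fin q)) (MonoidAlgebra ℤ Γ))ˣ,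
    P ∈ commutator (Matrix (Fin n ⊕ (Fin q ⊕ Fin q)) (Fin n ⊕ (Fin q ⊕ Fin q))
      (MonoidAlgebra ℤ Γ))ˣ ∧
    ψ' = (P : Matrix (Fin n ⊕ (Fin q ⊕ Fin q)) (Fin n ⊕ (Fin q ⊕ Fin q)) (MonoidAlgebra ℤ Γ))
      * addHyp (Fin q) ψ
      * adj (P : Matrix (Fin n ⊕ (Fin q ⊕ Fin q)) (Fin n ⊕ (Fin q ⊕ Fin q)) (MonoidAlgebra ℤ Γ))

section low

variable {ι : Type} [Fintype ι] [DecidableEq ι]

theorem forms_size (htf : ∀ g : Γ, ∀ k : ℕ, 0 < k → g ^ k = 1 → g = 1) (ε : ℤ)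
    (hε : ε = 1 ∨ ε = -1) (ψ : Matrix ι ι (MonoidAlgebra ℤ Γ))
    (hψ : NormLE (ψ + ε • adj ψ) (3 / Real.sqrt 2 + (1 / 2) ^ (2 * Fintype.card ι + 30))) :
    FromCyclic ε ψ :=
  Pool.Agent.Q181.TO.forms_of htf ε hε ψ fun b =>
    Pool.Agent.Q181.TO.stab_cyclic_of htf (ψ + ε • adj ψ) b _ (noTripod_size _ hψ b)

theorem forms_inv (htf : ∀ g : Γ, ∀ k : ℕ, 0 < k → g ^ k = 1 → g = 1) (ε : ℤ)
    (hε : ε = 1 ∨ ε = -1) (ψ : Matrix ι ι (MonoidAlgebra ℤ Γ)) (K : ℕ)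
    (Λ : (Matrix ι ι (MonoidAlgebra ℤ Γ))ˣ) (hΛ : Λ.val = ψ + ε • adj ψ)
    (hK : NormLE Λ⁻¹.val K)
    (hψ : NormLE (ψ + ε • adj ψ) (3 / Real.sqrt 2 + (1 / 2) ^ (8 * K + 31))) :
    FromCyclic ε ψ := by
  have h1 := LB_of_inv Λ.val Λ⁻¹.val Λ.mul_inv K hK
  rw [hΛ] at h1
  exact Pool.Agent.Q181.TO.forms_of htf ε hε ψ fun b =>
    Pool.Agent.Q181.TO.stab_cyclic_of htf (ψ + ε • adj ψ) b _ (noTripod_inv _ K h1 hψ b)

end low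

theorem unit_hyp {κ X : Type} [Fintype κ] [DecidableEq κ] [Fintype X] [DecidableEq X]
    (ψ : Matrix κ κ (MonoidAlgebra ℤ Γ)) (ε : ℤ) (hε : ε = 1 ∨ ε = -1)
    (h : IsUnit (ψ + ε • adj ψ)) : IsUnit (addHyp X ψ + ε • adj (addHyp X ψ)) := by
  obtain ⟨u, hu⟩ := h
  have h0 : addHyp X ψ + ε • adj (addHyp X ψ) = fromBlocks (ψ + ε • adj ψ) 0 0
      (fromBlocks 0 1 (ε • (1 : Matrix X X (MonoidAlgebra ℤ Γ))) 0) := by
    unfold addHyp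
    rw [adj_fromBlocks, adj_fromBlocks, adj_one]
    simp only [adj_zero]
    ext1 i j
    rcases i with i | (i | i) <;> rcases j with j | (j | j) <;>
      simp only [Matrix.add_apply, Matrix.smul_apply, fromBlocks_apply₁₁, fromBlocks_apply₁₂,
        fromBlocks_apply₂₁, fromBlocks_apply₂₂, Matrix.zero_apply, smul_zero, zero_add, add_zero]
  have hεε : ε • ε • (1 : Matrix X X (MonoidAlgebra ℤ Γ)) = 1 := by
    rw [smul_smul]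
    rcases hε with rfl | rfl <;> norm_num
  have hM : (fromBlocks 0 1 (ε • (1 : Matrix X X (MonoidAlgebra ℤ Γ))) 0)
      * (fromBlocks 0 (ε • (1 : Matrix X X (MonoidAlgebra ℤ Γ))) 1 0) = 1 := by
    rw [fromBlocks_multiply, ← fromBlocks_one]
    simp only [Matrix.mul_zero, Matrix.zero_mul, Matrix.one_mul, Matrix.mul_one, zero_add,
      add_zero, Matrix.smul_mul, Matrix.mul_smul, hεε, smul_zero]
  have hM' : (fromBlocks 0 (ε • (1 : Matrix X X (MonoidAlgebra ℤ Γ))) 1 0)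
      * (fromBlocks 0 1 (ε • (1 : Matrix X X (MonoidAlgebra ℤ Γ))) 0) = 1 := by
    rw [fromBlocks_multiply, ← fromBlocks_one]
    simp only [Matrix.mul_zero, Matrix.zero_mul, Matrix.one_mul, Matrix.mul_one, zero_add,
      add_zero, Matrix.smul_mul, Matrix.mul_smul, hεε, smul_zero]
  rw [h0, ← hu]
  refine ⟨⟨fromBlocks u.val 0 0 (fromBlocks 0 1 (ε • (1 : Matrix X X (MonoidAlgebra ℤ Γ))) 0),
    fromBlocks u⁻¹.val 0 0 (fromBlocks 0 (ε • (1 : Matrix X X (MonoidAlgebra ℤ Γ))) 1 0),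
    ?_, ?_⟩, rfl⟩
  · rw [fromBlocks_multiply, hM, ← fromBlocks_one]
    simp
  · rw [fromBlocks_multiply, hM', ← fromBlocks_one]
    simp

theorem unit_feqv {κ X : Type} [Fintype κ] [DecidableEq κ] [Fintype X] [DecidableEq X]
    (ψ : Matrix κ κ (MonoidAlgebra ℤ Γ))
    (ψ' : Matrix (κ ⊕ (X ⊕ X)) (κ ⊕ (X ⊕ X)) (MonoidAlgebra ℤ Γ)) (h : FEqv ψ ψ') (ε : ℤ)
    (hε : ε = 1 ∨ ε = -1) (hu : IsUnit (ψ + ε • adj ψ)) : IsUnit (ψ' + ε • adj ψ') := by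
  obtain ⟨P, -, rfl⟩ := h
  have hlam : P.val * addHyp X ψ * adj P.val + ε • adj (P.val * addHyp X ψ * adj P.val)
      = P.val * (addHyp X ψ + ε • adj (addHyp X ψ)) * adj P.val := by
    rw [adj_mul, adj_mul, adj_adj, Matrix.mul_add, Matrix.add_mul, Matrix.mul_smul,
      Matrix.smul_mul, Matrix.mul_assoc P.val (adj (addHyp X ψ))]
  rw [hlam]
  have hP : IsUnit (adj P.val) :=
    ⟨⟨adj P.val, adj P⁻¹.val, by rw [← adj_mul, P.inv_mul, adj_one],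
      by rw [← adj_mul, P.mul_inv, adj_one]⟩, rfl⟩
  exact (P.isUnit.mul (unit_hyp ψ ε hε hu)).mul hP

theorem forms_upper {n : ℕ} (ε : ℤ) (hε : ε = 1 ∨ ε = -1)
    (ψ : Matrix (Fin n) (Fin n) (MonoidAlgebra ℤ Γ)) :
    ∃ C : ℕ, ∀ L : ℕ, 1 ≤ L → ∃ (q : ℕ)
      (ψ' : Matrix (Fin n ⊕ (Fin q ⊕ Fin q)) (Fin n ⊕ (Fin q ⊕ Fin q)) (MonoidAlgebra ℤ Γ)),
      FormRep ψ ψ' ∧ q ≤ C * L ∧ NormLE (ψ' + ε • adj ψ') (3 / Real.sqrt 2 + (1 / 2) ^ L) ∧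
      (IsUnit (ψ + ε • adj ψ) → ∃ Λ : (Matrix (Fin n ⊕ (Fin q ⊕ Fin q))
        (Fin n ⊕ (Fin q ⊕ Fin q)) (MonoidAlgebra ℤ Γ))ˣ,
        Λ.val = ψ' + ε • adj ψ' ∧ NormLE Λ⁻¹.val (C * L : ℕ)) := by
  obtain ⟨C, hC⟩ := form_upper ψ
  by_cases hu : IsUnit (ψ + ε • adj ψ)
  · obtain ⟨u, hu'⟩ := id hu
    obtain ⟨M, hM, hMi⟩ := Pool.Agent.Q181.LW.exists_NormLE u⁻¹.val
    have hLB : LB (ψ + ε • adj ψ) M := by
      have := LB_of_inv u.val u⁻¹.val u.mul_inv _ hMi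
      rw [Real.sq_sqrt (Nat.cast_nonneg _), hu'] at this
      exact this
    refine ⟨C * (M + 1), fun L hL => ?_⟩
    obtain ⟨q, ψ', hR, hq, hN⟩ := hC L hL
    refine ⟨q, ψ', hR, ?_, (hN ε hε).1, fun _ => ?_⟩
    · exact hq.trans (Nat.mul_le_mul_right _ (Nat.le_mul_of_pos_right _ (Nat.succ_pos _)))
    · obtain ⟨Λ, hΛ⟩ := unit_feqv ψ ψ' hR ε hε hu
      refine ⟨Λ, hΛ, normLE_of_LB Λ.val Λ⁻¹.val Λ.inv_mul _ _ ?_ (hΛ ▸ (hN ε hε).2 M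
        (Nat.cast_nonneg _) hLB)⟩
      have h1 : (0 : ℝ) ≤ C := Nat.cast_nonneg _
      have h2 : (0 : ℝ) ≤ M := Nat.cast_nonneg _
      have h3 : (C : ℝ) * (M + 1) ≤ (C * (M + 1)) ^ 2 := by
        have : ((C * (M + 1) : ℕ) : ℝ) ≤ ((C * (M + 1) : ℕ) : ℝ) ^ 2 := by
          exact_mod_cast Nat.le_self_pow two_ne_zero _
        push_cast at this
        exact this
      push_cast
      calc (C : ℝ) * (M + 1) * L ^ 2 ≤ (C * (M + 1)) ^ 2 * L ^ 2 :=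
            mul_le_mul_of_nonneg_right h3 (sq_nonneg _)
        _ = _ := by ring
  · refine ⟨C, fun L hL => ?_⟩
    obtain ⟨q, ψ', hR, hq, hN⟩ := hC L hL
    exact ⟨q, ψ', hR, hq, (hN ε hε).1, fun h => absurd h hu⟩

/-- the law in final form -/
theorem forms_law (htf : ∀ g : Γ, ∀ k : ℕ, 0 < k → g ^ k = 1 → g = 1) (ε : ℤ)
    (hε : ε = 1 ∨ ε = -1) {n : ℕ} (ψ : Matrix (Fin n) (Fin n) (MonoidAlgebra ℤ Γ))
    (hψ : ¬ ∃ (q : ℕ) (ψ' : Matrix (Fin n ⊕ (Fin q ⊕ Fin q)) (Fin n ⊕ (Fin q ⊕ Fin q))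
      (MonoidAlgebra ℤ Γ)), FormRep ψ ψ' ∧ FromCyclic ε ψ') (q L : ℕ)
    (ψ' : Matrix (Fin n ⊕ (Fin q ⊕ Fin q)) (Fin n ⊕ (Fin q ⊕ Fin q)) (MonoidAlgebra ℤ Γ))
    (hR : FormRep ψ ψ') (hN : NormLE (ψ' + ε • adj ψ') (3 / Real.sqrt 2 + (1 / 2) ^ L)) :
    L < 2 * (n + 2 * q) + 30 ∧ ∀ (K : ℕ) (Λ : (Matrix (Fin n ⊕ (Fin q ⊕ Fin q))
      (Fin n ⊕ (Fin q ⊕ Fin q)) (MonoidAlgebra ℤ Γ))ˣ), Λ.val = ψ' + ε • adj ψ' →
      NormLE Λ⁻¹.val K → L < 8 * K + 31 := by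
  constructor
  · by_contra hcon
    rw [not_lt] at hcon
    apply hψ
    refine ⟨q, ψ', hR, forms_size htf ε hε ψ' ?_⟩
    refine Pool.Agent.Q181.LW.NormLE_mono (by positivity) ?_ hN
    have h1 : Fintype.card (Fin n ⊕ (Fin q ⊕ Fin q)) = n + 2 * q := by
      simp only [Fintype.card_sum, Fintype.card_fin]
      omega
    rw [h1]
    linarith [Pool.Agent.Q181.LW.pow_half_le hcon]
  · intro K Λ hΛ hK
    by_contra hcon
    rw [not_lt] at hcon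
    apply hψ
    refine ⟨q, ψ', hR, forms_inv htf ε hε ψ' K Λ hΛ hK ?_⟩
    refine Pool.Agent.Q181.LW.NormLE_mono (by positivity) ?_ hN
    linarith [Pool.Agent.Q181.LW.pow_half_le hcon]

end Pool.Agent.Q181.LR
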