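import Pool.Agent.Q181.LR.Fl
import Pool.Agent.Q181.LW.Dil

set_option autoImplicit false
set_option linter.unusedSectionVars false

/-! Every form is, after adding a hyperbolic form, isometric to forms whose adjoints have norm close
to `3 / √2`, small inverse and small size. -/

namespace Pool.Agent.Q181.LR

open Matrix TH57.Thr TH6.LF
open Pool.Agent.Q181.LW (Mono mono_zero mono_one mono_neg schur_test LB exists_NS normSq_sub_le
  el_tri)

variable {G : Type} [Group G] {κ X Y : Type} [Fintype κ] [DecidableEq κ] [Fintype X]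
  [DecidableEq X] [Fintype Y] [DecidableEq Y]

theorem lam_sub (ψ : Matrix κ κ (MonoidAlgebra ℤ G)) (ε : ℤ) (f : Y ≃ κ) :
    ψ.submatrix f f + ε • adj (ψ.submatrix f f) = (ψ + ε • adj ψ).submatrix f f := rfl

theorem LB_hyp (ψ : Matrix κ κ (MonoidAlgebra ℤ G)) (ε : ℤ) (hε : ε = 1 ∨ ε = -1) (D : ℝ)
    (hD0 : 0 ≤ D) (hD : LB (ψ + ε • adj ψ) D) :
    LB (addHyp X ψ + ε • adj (addHyp X ψ)) (D + 1) := by
  have h0 : addHyp X ψ + ε • adj (addHyp X ψ) = fromBlocks (ψ + ε • adj ψ) 0 0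
      (fromBlocks 0 1 (ε • (1 : Matrix X X (MonoidAlgebra ℤ G))) 0) := by
    unfold addHyp
    rw [adj_fromBlocks, adj_fromBlocks, adj_one]
    simp only [adj_zero]
    ext1 i j
    rcases i with i | (i | i) <;> rcases j with j | (j | j) <;>
      simp only [Matrix.add_apply, Matrix.smul_apply, fromBlocks_apply₁₁, fromBlocks_apply₁₂,
        fromBlocks_apply₂₁, fromBlocks_apply₂₂, Matrix.zero_apply, smul_zero, zero_add, add_zero]
  intro y
  set yk := y ∘ Sum.inl with hyk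
  set yr := y ∘ Sum.inr ∘ Sum.inl with hyr
  set yc := y ∘ Sum.inr ∘ Sum.inr with hyc
  have hy : y = Sum.elim yk (Sum.elim yr yc) := by
    funext i
    rcases i with i | (i | i) <;> rfl
  have h1 : y ᵥ* toReal (addHyp X ψ + ε • adj (addHyp X ψ))
      = Sum.elim (yk ᵥ* toReal (ψ + ε • adj ψ)) (Sum.elim (ε • yc) yr) := by
    rw [h0]
    simp only [toReal_fromBlocks, toReal_zero, toReal_one, toReal_zsmul']
    conv_lhs => rw [hy]
    rw [Matrix.vecMul_fromBlocks]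
    simp only [Sum.elim_comp_inl, Sum.elim_comp_inr]
    rw [Matrix.vecMul_fromBlocks]
    simp only [Sum.elim_comp_inl, Sum.elim_comp_inr, vecMul_zsmul', Matrix.vecMul_zero, zero_add,
      add_zero, Matrix.vecMul_one]
  rw [h1, normSq_elim, normSq_elim, normSq_eps ε hε]
  conv_lhs => rw [hy]
  rw [normSq_elim, normSq_elim]
  have h2 := hD yk
  have n1 := normSq_nonneg yr
  have n2 := normSq_nonneg yc
  have n3 := normSq_nonneg (yk ᵥ* toReal (ψ + ε • adj ψ))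
  nlinarith

theorem feqv_LB (ψ : Matrix κ κ (MonoidAlgebra ℤ G))
    (ψ' : Matrix (κ ⊕ (X ⊕ X)) (κ ⊕ (X ⊕ X)) (MonoidAlgebra ℤ G)) (h : FEqv ψ ψ') :
    ∃ C : ℕ, ∀ ε : ℤ, (ε = 1 ∨ ε = -1) → ∀ D : ℝ, 0 ≤ D → LB (ψ + ε • adj ψ) D →
      LB (ψ' + ε • adj ψ') (C * (D + 1)) := by
  obtain ⟨P, -, rfl⟩ := h
  obtain ⟨w, hw0, hw⟩ := exists_NS P⁻¹.val
  obtain ⟨C, hC⟩ := exists_nat_ge (w * w)
  refine ⟨C, fun ε hε D hD hA x => ?_⟩
  have hlam : P.val * addHyp X ψ * adj P.val + ε • adj (P.val * addHyp X ψ * adj P.val)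
      = P.val * (addHyp X ψ + ε • adj (addHyp X ψ)) * adj P.val := by
    rw [adj_mul, adj_mul, adj_adj, Matrix.mul_add, Matrix.add_mul, Matrix.mul_smul,
      Matrix.smul_mul, Matrix.mul_assoc P.val (adj (addHyp X ψ))]
  rw [hlam]
  have hB := LB_hyp (X := X) ψ ε hε D hD hA
  generalize addHyp X ψ + ε • adj (addHyp X ψ) = M at hB
  have e1 : x = (x ᵥ* toReal P.val) ᵥ* toReal P⁻¹.val := by
    rw [Matrix.vecMul_vecMul, ← toReal_mul, P.mul_inv, toReal_one, Matrix.vecMul_one]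
  set y := x ᵥ* toReal P.val with hy
  set u := y ᵥ* toReal M with hu
  have e2 : x ᵥ* toReal (P.val * M * adj P.val) = u ᵥ* toReal (adj P.val) := by
    rw [toReal_mul, toReal_mul, ← Matrix.vecMul_vecMul, ← Matrix.vecMul_vecMul]
  have e3 : u = (u ᵥ* toReal (adj P.val)) ᵥ* toReal (adj P⁻¹.val) := by
    rw [Matrix.vecMul_vecMul, ← toReal_mul, ← adj_mul, P.inv_mul, adj_one, toReal_one,
      Matrix.vecMul_one]
  have b1 : normSq x ≤ w * normSq y := by
    calc normSq x = normSq (y ᵥ* toReal P⁻¹.val) := by rw [← e1]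
      _ ≤ _ := hw y
  have b3 : normSq u ≤ w * normSq (u ᵥ* toReal (adj P.val)) := by
    calc normSq u = normSq ((u ᵥ* toReal (adj P.val)) ᵥ* toReal (adj P⁻¹.val)) := by rw [← e3]
      _ ≤ _ := NS_adj _ w hw0 hw _
  have b2 : normSq y ≤ (D + 1) * normSq u := hB y
  rw [e2]
  have n1 := normSq_nonneg y
  have n2 := normSq_nonneg u
  have n3 := normSq_nonneg (u ᵥ* toReal (adj P.val))
  calc normSq x ≤ w * normSq y := b1
    _ ≤ w * ((D + 1) * normSq u) := mul_le_mul_of_nonneg_left b2 hw0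
    _ ≤ w * ((D + 1) * (w * normSq (u ᵥ* toReal (adj P.val)))) :=
        mul_le_mul_of_nonneg_left (mul_le_mul_of_nonneg_left b3 (by linarith)) hw0
    _ = (w * w) * ((D + 1) * normSq (u ᵥ* toReal (adj P.val))) := by ring
    _ ≤ C * ((D + 1) * normSq (u ᵥ* toReal (adj P.val))) :=
        mul_le_mul_of_nonneg_right hC (mul_nonneg (by linarith) n3)
    _ = _ := by ring

/-- the second step -/
theorem form_two (ψ : Matrix κ κ (MonoidAlgebra ℤ G))
    (ψ₁ : Matrix (κ ⊕ (X ⊕ X)) (κ ⊕ (X ⊕ X)) (MonoidAlgebra ℤ G)) (h1 : FEqv ψ ψ₁)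
    (hM : ∀ i j, Mono (ψ₁ i j)) (hcard : 3 ≤ Fintype.card (κ ⊕ (X ⊕ X)))
    (hd : ∀ i, ∃ T T' : Finset (κ ⊕ (X ⊕ X)), T.card + T'.card ≤ 3 ∧
      (∀ j, ψ₁ i j ≠ 0 → j ∈ T) ∧ (∀ j, ψ₁ j i ≠ 0 → j ∈ T')) :
    ∃ C : ℕ, ∀ L : ℕ, 1 ≤ L → ∃ (q : ℕ)
      (ψ' : Matrix (κ ⊕ (Fin q ⊕ Fin q)) (κ ⊕ (Fin q ⊕ Fin q)) (MonoidAlgebra ℤ G)),
      FEqv ψ ψ' ∧ q ≤ C * L ∧ ∀ ε : ℤ, (ε = 1 ∨ ε = -1) →
        NormLE (ψ' + ε • adj ψ') (3 / Real.sqrt 2 + (1 / 2) ^ L) ∧
        ∀ D : ℝ, 0 ≤ D → LB (ψ + ε • adj ψ) D → LB (ψ' + ε • adj ψ') (C * (D + 1) * L ^ 2) := by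
  classical
  obtain ⟨C₁, hC₁⟩ := feqv_LB ψ ψ₁ h1
  set c₀ := Fintype.card X
  set e₀ := Fintype.card (ME ψ₁)
  refine ⟨c₀ + 3 * e₀ + 9 * (156 * C₁ + 2), fun L hL => ?_⟩
  have hd' : ∀ i, ((Finset.univ.filter fun e => ME.s ψ₁ e = i).card : ℝ)
      + ((Finset.univ.filter fun e => ME.t ψ₁ e = i).card : ℝ) ≤ 3 := by
    intro i
    obtain ⟨T, T', h2, h3, h4⟩ := hd i
    have h5 := ME.card_s ψ₁ i T h3
    have h6 := ME.card_t ψ₁ i T' h4
    exact_mod_cast (add_le_add h5 h6).trans h2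
  have hs : ∀ i, ((Finset.univ.filter fun e => ME.s ψ₁ e = i).card : ℝ) ≤ 3 := fun i => by
    have := hd' i
    have h2 : (0 : ℝ) ≤ ((Finset.univ.filter fun e => ME.t ψ₁ e = i).card : ℝ) :=
      Nat.cast_nonneg _
    linarith
  have ht : ∀ i, ((Finset.univ.filter fun e => ME.t ψ₁ e = i).card : ℝ) ≤ 3 := fun i => by
    have := hd' i
    have h2 : (0 : ℝ) ≤ ((Finset.univ.filter fun e => ME.s ψ₁ e = i).card : ℝ) :=
      Nat.cast_nonneg _
    linarith
  have hE : FEqv ψ₁ (Fs (ME.s ψ₁) (ME.t ψ₁) (ME.z ψ₁) (L + 2)) := by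
    refine feqv_dil ψ₁ _ _ _ (Vs (L + 2)) ?_ (UsVs (L + 2))
      (QVS (ME.s ψ₁) (ME.t ψ₁) (ME.z ψ₁) (L + 2) (by omega) ψ₁ (ME.isSum ψ₁)) ?_
    · refine el_tri _ (fun x => (x.2 : ℕ)) ?_ (fun x y hxy h => Us_tri (L + 2) x y hxy h)
      intro x
      unfold Us
      simp
    · rw [Fintype.card_sum]
      omega
  have hE2 := feqv_trans ψ ψ₁ _ h1 hE
  let e : Fin (Fintype.card (X ⊕ (ME ψ₁ × Fin (L + 2)))) ≃ X ⊕ (ME ψ₁ × Fin (L + 2)) :=
    (Fintype.equivFin _).symm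
  have hE3 := feqv_re ψ _ e hE2
  refine ⟨_, _, hE3, ?_, fun ε hε => ⟨?_, ?_⟩⟩
  · rw [Fintype.card_sum, Fintype.card_prod, Fintype.card_fin]
    change c₀ + e₀ * (L + 2) ≤ _
    have h1 : c₀ ≤ c₀ * L := Nat.le_mul_of_pos_right _ hL
    have h2 : e₀ * (L + 2) ≤ 3 * e₀ * L := by nlinarith [Nat.zero_le e₀]
    nlinarith [Nat.zero_le C₁]
  · rw [lam_sub, lam_sub]
    refine NormLE_sub _ _ _ _ (NormLE_sub _ _ _ _ ?_)
    have hN := norm_Fs (ME.s ψ₁) (ME.t ψ₁) (ME.z ψ₁) (L + 2) ε hε (θ := 1 / Real.sqrt 2)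
      (by positivity) sq_half (by omega) hd' (ME.mono ψ₁ hM)
    refine Pool.Agent.Q181.LW.NormLE_mono (by positivity) ?_ hN
    have h1 : 3 * (1 / Real.sqrt 2) = 3 / Real.sqrt 2 := by ring
    rw [h1, pow_add]
    have h2 : (0 : ℝ) < (1 / 2) ^ L := by positivity
    norm_num
    linarith
  · intro D hD hA
    rw [lam_sub, lam_sub]
    refine LB_sub _ _ _ _ (LB_sub _ _ _ _ ?_)
    have h1 := hC₁ ε hε D hD hA
    have h2 := LB_Fs (ME.s ψ₁) (ME.t ψ₁) (ME.z ψ₁) (L + 2) ε hε (by omega) hs ht (ME.mono ψ₁ hM)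
      ψ₁ (ME.isSum ψ₁) (C₁ * (D + 1)) (by positivity) h1
    refine LB_mono ?_ h2
    have h3 : (1 : ℝ) ≤ L := by exact_mod_cast hL
    have h4 : (0 : ℝ) ≤ c₀ := Nat.cast_nonneg _
    have h5 : (0 : ℝ) ≤ e₀ := Nat.cast_nonneg _
    have h6 : (0 : ℝ) ≤ C₁ := Nat.cast_nonneg _
    have h7 : ((L + 2 : ℕ) : ℝ) ^ 2 ≤ 9 * L ^ 2 := by
      push_cast
      nlinarith
    have h8 : 156 * (C₁ * (D + 1)) + 2 ≤ (156 * C₁ + 2) * (D + 1) := by nlinarith
    calc (156 * (C₁ * (D + 1)) + 2) * ((L + 2 : ℕ) : ℝ) ^ 2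
        ≤ ((156 * C₁ + 2) * (D + 1)) * (9 * L ^ 2) :=
          mul_le_mul h8 h7 (by positivity) (by positivity)
      _ = (9 * (156 * C₁ + 2)) * (D + 1) * L ^ 2 := by ring
      _ ≤ _ := by
          push_cast
          have h9 : 0 ≤ (D + 1) * (L : ℝ) ^ 2 := by positivity
          nlinarith

/-- **The upper bound for forms.** -/
theorem form_upper (ψ : Matrix κ κ (MonoidAlgebra ℤ G)) :
    ∃ C : ℕ, ∀ L : ℕ, 1 ≤ L → ∃ (q : ℕ)
      (ψ' : Matrix (κ ⊕ (Fin q ⊕ Fin q)) (κ ⊕ (Fin q ⊕ Fin q)) (MonoidAlgebra ℤ G)),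
      FEqv ψ ψ' ∧ q ≤ C * L ∧ ∀ ε : ℤ, (ε = 1 ∨ ε = -1) →
        NormLE (ψ' + ε • adj ψ') (3 / Real.sqrt 2 + (1 / 2) ^ L) ∧
        ∀ D : ℝ, 0 ≤ D → LB (ψ + ε • adj ψ) D → LB (ψ' + ε • adj ψ') (C * (D + 1) * L ^ 2) := by
  classical
  obtain ⟨m₀, s, t, z, hA, hz⟩ := exists_edges_fin ψ
  rcases Nat.eq_zero_or_pos m₀ with h0 | h0
  · subst h0
    have hA0 : ψ = 0 := by
      rw [hA]
      simp
    have hE : FEqv ψ (addHyp (Fin 0) ψ) := by
      refine ⟨1, one_mem _, ?_⟩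
      rw [Units.val_one, adj_one, Matrix.one_mul, Matrix.mul_one]
    obtain ⟨C₁, hC₁⟩ := feqv_LB ψ _ hE
    refine ⟨C₁, fun L hL => ⟨0, _, hE, Nat.zero_le _, fun ε hε => ⟨norm_zero_of _ ?_ _,
      fun D hD hLB => ?_⟩⟩⟩
    · subst hA0
      ext1 i j
      rcases i with i | (i | i)
      · rcases j with j | (j | j)
        · change (0 : MonoidAlgebra ℤ G) + ε • bar 0 = 0
          rw [bar_zero, smul_zero, add_zero]
        · exact j.elim0
        · exact j.elim0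
      · exact i.elim0
      · exact i.elim0
    · refine LB_mono ?_ (hC₁ ε hε D hD hLB)
      have h3 : (1 : ℝ) ≤ L := by exact_mod_cast hL
      have h4 : (1 : ℝ) ≤ (L : ℝ) ^ 2 := by nlinarith
      have h5 : (0 : ℝ) ≤ C₁ * (D + 1) := by positivity
      nlinarith
  · have hne : 1 ≤ Fintype.card κ := Fintype.card_pos_iff.2 ⟨s ⟨0, h0⟩⟩
    have hcard : 3 ≤ Fintype.card (κ ⊕ (XC κ κ m₀ ⊕ XC κ κ m₀)) := by
      simp only [Fintype.card_sum, Fintype.card_prod, Fintype.card_fin]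
      nlinarith
    have hE : FEqv ψ (FF (QC G κ κ m₀) (SC G κ κ m₀) (UC s t z)) :=
      feqv_dil ψ _ _ _ (VC s t z) (el_tri _ rC (UC_diag s t z) (UC_tri s t z)) (UVC s t z)
        (QVSC s t z h0 ψ hA) hcard
    refine form_two ψ _ hE ?_ hcard ?_
    · intro i j
      rcases i with i | (i | i) <;> rcases j with j | (j | j)
      · exact mono_zero
      · exact mono_zero
      · exact mono_QC i j
      · exact mono_SC i j
      · exact mono_zero
      · exact mono_UC s t z hz i j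
      · exact mono_zero
      · exact mono_zero
      · exact mono_zero
    · intro i
      rcases i with i | (x | x)
      · refine ⟨{Sum.inr (Sum.inr (Sum.inl (i, ⟨0, h0⟩)))},
          {Sum.inr (Sum.inl (Sum.inr (i, ⟨m₀ - 1, by omega⟩)))}, by simp, ?_, ?_⟩
        · rintro (j | (j | j)) h
          · exact absurd rfl h
          · exact absurd rfl h
          · rw [QC_row i h0 j h]
            simp
        · rintro (j | (j | j)) h
          · exact absurd rfl h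
          · rw [SC_col i h0 j h]
            simp
          · exact absurd rfl h
      · obtain ⟨T, h1, h2, h3⟩ := US_row s t z x
        refine ⟨T.image (Sum.map id Sum.inr), ∅, ?_, ?_, ?_⟩
        · rw [Finset.card_empty, add_zero]
          exact Finset.card_image_le.trans h1
        · rintro (j | (j | j)) h
          · exact Finset.mem_image.2 ⟨Sum.inl j, h2 j h, rfl⟩
          · exact absurd rfl h
          · exact Finset.mem_image.2 ⟨Sum.inr j, h3 j h, rfl⟩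
        · rintro (j | (j | j)) h
          · exact absurd rfl h
          · exact absurd rfl h
          · exact absurd rfl h
      · obtain ⟨T, h1, h2, h3⟩ := QU_col s t z x
        refine ⟨∅, T.image (Sum.map id Sum.inl), ?_, ?_, ?_⟩
        · rw [Finset.card_empty, zero_add]
          exact Finset.card_image_le.trans h1
        · rintro (j | (j | j)) h
          · exact absurd rfl h
          · exact absurd rfl h
          · exact absurd rfl h
        · rintro (j | (j | j)) h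
          · exact Finset.mem_image.2 ⟨Sum.inl j, h2 j h, rfl⟩
          · exact Finset.mem_image.2 ⟨Sum.inr j, h3 j h, rfl⟩
          · exact absurd rfl h

end Pool.Agent.Q181.LR
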