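import Pool.Agent.Q181.LR.Zs

set_option autoImplicit false
set_option linter.unusedSectionVars false

/-! Lower bounds for a subdivided rectangular matrix. -/

namespace Pool.Agent.Q181.LR

open Matrix TH57.Thr
open Pool.Agent.Q181.LW (Mono mono_zero mono_one mono_neg sum_right sum_left schur_test LB
  normSq_sub_le NS_Vs)

variable {G : Type} [Group G] {ι κ E : Type} [Fintype ι] [DecidableEq ι] [Fintype κ]
  [DecidableEq κ] [Fintype E] [DecidableEq E]
  (s : E → ι) (t : E → κ) (z : E → MonoidAlgebra ℤ G) (L : ℕ) (hL : 1 ≤ L)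
  (hs : ∀ i, ((Finset.univ.filter fun e => s e = i).card : ℝ) ≤ 3)
  (ht : ∀ i, ((Finset.univ.filter fun e => t e = i).card : ℝ) ≤ 3)

theorem NS_Vs : NS (Vs L : Matrix (E × Fin L) (E × Fin L) (MonoidAlgebra ℤ G)) (L * L) := by
  refine schur_test _ (fun x y => ?_) (fun x y => if x.1 = y.1 then 1 else 0) (fun x y h => ?_)
    (fun x y => by split_ifs <;> norm_num) (fun _ => 1) (fun _ => 1) (fun _ => one_pos) L L
    (Nat.cast_nonneg _) (Nat.cast_nonneg _) (fun _ => zero_le_one) (fun x => ?_) (fun y => ?_)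
  · unfold Vs
    split_ifs
    · exact mono_one
    · exact mono_zero
  · unfold Vs at h
    split_ifs with h2
    · exact le_rfl
    · exact absurd (if_neg (fun h1 => h2 h1.1)) h
  · simp only [mul_one]
    rw [Fintype.sum_prod_type, Finset.sum_eq_single x.1]
    · simp
    · intro e _ he
      rw [Finset.sum_eq_zero]
      intro k _
      rw [if_neg (Ne.symm he)]
    · intro h; exact absurd (Finset.mem_univ _) h
  · simp only [mul_one]
    rw [Fintype.sum_prod_type, Finset.sum_eq_single y.1]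
    · simp
    · intro e _ he
      rw [Finset.sum_eq_zero]
      intro k _
      rw [if_neg he]
    · intro h; exact absurd (Finset.mem_univ _) h

include hs in
theorem NS_Qv (hz : ∀ e, Mono (z e)) :
    NS (Qv s z L : Matrix ι (E × Fin L) (MonoidAlgebra ℤ G)) (3 * L * 1) := by
  refine schur_test _ (fun x y => ?_) (fun i y => if s y.1 = i then 1 else 0) (fun x y h => ?_)
    (fun x y => by split_ifs <;> norm_num) (fun _ => 1) (fun _ => 1) (fun _ => one_pos) (3 * L) 1
    (by positivity) zero_le_one (fun _ => zero_le_one) (fun i => ?_) (fun y => ?_)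
  · unfold Qv
    split_ifs
    · exact hz _
    · exact mono_zero
  · unfold Qv at h
    split_ifs at h ⊢ with h1
    · exact le_rfl
    · exact absurd rfl h
  · simp only [mul_one]
    rw [Fintype.sum_prod_type]
    have h1 : ∀ e : E, ∑ _k : Fin L, (if s e = i then (1 : ℝ) else 0)
        = L * (if s e = i then 1 else 0) := fun e => by simp
    change ∑ e, ∑ _k : Fin L, (if s e = i then (1 : ℝ) else 0) ≤ 3 * L
    simp only [h1]
    rw [← Finset.mul_sum, ← Finset.sum_filter, Finset.sum_const, nsmul_eq_mul, mul_one]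
    have := hs i
    nlinarith [Nat.cast_nonneg (α := ℝ) L]
  · simp

include ht in
theorem NS_Sv : NS (Sv t L : Matrix (E × Fin L) κ (MonoidAlgebra ℤ G)) (1 * (3 * L)) := by
  refine schur_test _ (fun x y => ?_) (fun x j => if t x.1 = j then 1 else 0) (fun x y h => ?_)
    (fun x y => by split_ifs <;> norm_num) (fun _ => 1) (fun _ => 1) (fun _ => one_pos) 1 (3 * L)
    zero_le_one (by positivity) (fun _ => zero_le_one) (fun i => ?_) (fun j => ?_)
  · unfold Sv
    split_ifs
    · exact mono_neg mono_one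
    · exact mono_zero
  · unfold Sv at h
    split_ifs at h ⊢ with h1
    · exact le_rfl
    · exact absurd rfl h
  · simp
  · simp only [mul_one]
    rw [Fintype.sum_prod_type]
    have h1 : ∀ e : E, ∑ _k : Fin L, (if t e = j then (1 : ℝ) else 0)
        = L * (if t e = j then 1 else 0) := fun e => by simp
    change ∑ e, ∑ _k : Fin L, (if t e = j then (1 : ℝ) else 0) ≤ 3 * L
    simp only [h1]
    rw [← Finset.mul_sum, ← Finset.sum_filter, Finset.sum_const, nsmul_eq_mul, mul_one]
    have := ht j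
    nlinarith [Nat.cast_nonneg (α := ℝ) L]

include hL hs ht in
/-- **The inverse of the subdivided matrix.** -/
theorem LB_Zs (hz : ∀ e, Mono (z e)) (A : Matrix ι κ (MonoidAlgebra ℤ G)) (hA : IsSum s t z A)
    (D : ℝ) (hD0 : 0 ≤ D) (hD : LB A D) : LB (Zs s t z L) ((42 * D + 2) * L ^ 2) := by
  intro y
  set yk := y ∘ Sum.inl with hyk
  set yx := y ∘ Sum.inr with hyx
  have hy : y = Sum.elim yk yx := (Sum.elim_comp_inl_inr y).symm
  set zk := yx ᵥ* toReal (Ss t L) with hzk
  set zx := yk ᵥ* toReal (Qs s z L) + yx ᵥ* toReal (Us L) with hzx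
  have h1 : y ᵥ* toReal (Zs s t z L) = Sum.elim zk zx := by
    unfold Zs
    rw [toReal_fromBlocks, hy, Matrix.vecMul_fromBlocks, toReal_zero]
    congr 1
    · rw [Matrix.vecMul_zero, zero_add]
      rfl
  have h2 : yk ᵥ* toReal A = zk - zx ᵥ* toReal (Sv t L) := by
    have h3 : zx ᵥ* toReal (Sv t L) = -(yk ᵥ* toReal A) + zk := by
      rw [← VsSs t L hL, toReal_mul, ← Matrix.vecMul_vecMul, hzx, Matrix.add_vecMul,
        Matrix.vecMul_vecMul, Matrix.vecMul_vecMul, ← toReal_mul, ← toReal_mul, UsVs, toReal_one,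
        Matrix.vecMul_one, Matrix.add_vecMul, Matrix.vecMul_vecMul, ← toReal_mul]
      congr 1
      have h4 : A = -((Qs s z L : Matrix ι (E × Fin L) (MonoidAlgebra ℤ G))
      * (Vs L : Matrix (E × Fin L) (E × Fin L) (MonoidAlgebra ℤ G))
      * (Ss t L : Matrix (E × Fin L) κ (MonoidAlgebra ℤ G))) := QVS s t z L hL A hA
      have h5 : (Qs s z L : Matrix ι (E × Fin L) (MonoidAlgebra ℤ G))
          * (Vs L : Matrix (E × Fin L) (E × Fin L) (MonoidAlgebra ℤ G))
          * (Ss t L : Matrix (E × Fin L) κ (MonoidAlgebra ℤ G)) = -A := by rw [h4, neg_neg]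
      rw [h5, toReal_neg, Matrix.vecMul_neg]
    rw [h3]
    abel
  have h3 : yx = zx ᵥ* toReal (Vs L) - yk ᵥ* toReal (Qv s z L) := by
    rw [hzx, Matrix.add_vecMul, Matrix.vecMul_vecMul, Matrix.vecMul_vecMul, ← toReal_mul,
      ← toReal_mul, UsVs, toReal_one, Matrix.vecMul_one, QsVs s z L hL]
    abel
  have hL1 : (1 : ℝ) ≤ L := by exact_mod_cast hL
  have n1 := normSq_nonneg zk
  have n2 := normSq_nonneg zx
  have n3 := normSq_nonneg yk
  have b1 : normSq (zx ᵥ* toReal (Sv t L)) ≤ 1 * (3 * L) * normSq zx := NS_Sv t L ht zx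
  have b2 : normSq (yk ᵥ* toReal (Qv s z L)) ≤ 3 * L * 1 * normSq yk := NS_Qv s z L hs hz yk
  have b3 : normSq (zx ᵥ* toReal (Vs L)) ≤ L * L * normSq zx := NS_Vs L zx
  have c1 : normSq yk ≤ D * (2 * normSq zk + 2 * (3 * L * normSq zx)) := by
    refine (hD yk).trans (mul_le_mul_of_nonneg_left ?_ hD0)
    rw [h2]
    refine (normSq_sub_le _ _).trans ?_
    linarith
  have c2 : normSq yx ≤ 2 * (L * L * normSq zx) + 2 * (3 * L * normSq yk) := by
    have h4 := normSq_sub_le (zx ᵥ* toReal (Vs L)) (yk ᵥ* toReal (Qv s z L))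
    rw [← h3] at h4
    linarith
  have c3 : normSq y = normSq yk + normSq yx := by
    rw [hy, normSq_elim]
  have c4 : normSq (y ᵥ* toReal (Zs s t z L)) = normSq zk + normSq zx := by
    rw [h1, normSq_elim]
  rw [c3, c4]
  have d1 : normSq yk ≤ D * (6 * L) * (normSq zk + normSq zx) := by
    refine c1.trans ?_
    have : 2 * normSq zk + 2 * (3 * L * normSq zx) ≤ (6 * L) * (normSq zk + normSq zx) := by
      nlinarith
    calc D * (2 * normSq zk + 2 * (3 * L * normSq zx))
        ≤ D * ((6 * L) * (normSq zk + normSq zx)) := mul_le_mul_of_nonneg_left this hD0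
      _ = _ := by ring
  have d2 : normSq yk + normSq yx ≤ 7 * L * normSq yk + 2 * (L * L * normSq zx) := by nlinarith
  have d3 : 7 * L * normSq yk ≤ 7 * L * (D * (6 * L) * (normSq zk + normSq zx)) :=
    mul_le_mul_of_nonneg_left d1 (by positivity)
  have d4 : 2 * (L * L * normSq zx) ≤ 2 * L ^ 2 * (normSq zk + normSq zx) := by
    have : 0 ≤ (L : ℝ) ^ 2 * normSq zk := by positivity
    nlinarith
  calc normSq yk + normSq yx ≤ 7 * L * (D * (6 * L) * (normSq zk + normSq zx))
        + 2 * L ^ 2 * (normSq zk + normSq zx) := by linarith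
    _ = (42 * D + 2) * L ^ 2 * (normSq zk + normSq zx) := by ring

end Pool.Agent.Q181.LR
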