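import Pool.Agent.Q181.LR.Low

set_option autoImplicit false
set_option linter.unusedSectionVars false

/-! Matrices with monomial entries and few entries in each row and column. -/

namespace Pool.Agent.Q181.LR

open Matrix TH57.Thr
open Pool.Agent.Q181.LW (Mono mono_zero mono_one mono_neg)

variable {G : Type} [Group G] {ι κ : Type} [Fintype ι] [DecidableEq ι] [Fintype κ]
  [DecidableEq κ]

/-- the positions of the entries -/
def ME (A : Matrix ι κ (MonoidAlgebra ℤ G)) : Type := {p : ι × κ // A p.1 p.2 ≠ 0}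

noncomputable instance (A : Matrix ι κ (MonoidAlgebra ℤ G)) : Fintype (ME A) := by
  classical
  unfold ME
  infer_instance

noncomputable instance (A : Matrix ι κ (MonoidAlgebra ℤ G)) : DecidableEq (ME A) :=
  Classical.decEq _

variable (A : Matrix ι κ (MonoidAlgebra ℤ G))

def ME.s (p : ME A) : ι := p.1.1

def ME.t (p : ME A) : κ := p.1.2

def ME.z (p : ME A) : MonoidAlgebra ℤ G := A p.1.1 p.1.2

theorem ME.mono (hA : ∀ i j, Mono (A i j)) (p : ME A) : Mono (ME.z A p) := hA _ _

theorem ME.isSum : IsSum (ME.s A) (ME.t A) (ME.z A) A := by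
  classical
  unfold IsSum
  conv_lhs => rw [Matrix.matrix_eq_sum_single A]
  rw [← Fintype.sum_prod_type' (f := fun i j => Matrix.single i j (A i j))]
  have h1 : ∑ x : ι × κ, Matrix.single x.1 x.2 (A x.1 x.2)
      = ∑ x ∈ Finset.univ.filter (fun x : ι × κ => A x.1 x.2 ≠ 0),
        Matrix.single x.1 x.2 (A x.1 x.2) := by
    symm
    apply Finset.sum_subset (Finset.subset_univ _)
    intro x _ hx
    rw [Finset.mem_filter] at hx
    have : A x.1 x.2 = 0 := by
      by_contra h
      exact hx ⟨Finset.mem_univ _, h⟩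
    rw [this, Matrix.single_zero]
  rw [h1, ← Finset.sum_subtype_eq_sum_filter]
  refine Finset.sum_bij (fun x _ => ⟨x.1, x.2⟩) (fun _ _ => Finset.mem_univ _) ?_ ?_ ?_
  · intro a _ b _ h
    exact Subtype.ext (congrArg Subtype.val h)
  · rintro ⟨b, hb⟩ -
    exact ⟨⟨b, hb⟩, by simp, rfl⟩
  · intro x _
    rfl

theorem ME.card_s (i : ι) (T : Finset κ) (hT : ∀ j, A i j ≠ 0 → j ∈ T) :
    (Finset.univ.filter fun p : ME A => ME.s A p = i).card ≤ T.card := by
  classical
  apply Finset.card_le_card_of_injOn (fun p => p.1.2)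
  · intro p hp
    have hp := (Finset.mem_filter.1 hp).2
    exact hT _ (hp ▸ p.2)
  · intro p hp p' hp' h
    have hp := (Finset.mem_filter.1 hp).2
    have hp' := (Finset.mem_filter.1 hp').2
    exact Subtype.ext (Prod.ext (hp.trans hp'.symm) h)

theorem ME.card_t (j : κ) (T : Finset ι) (hT : ∀ i, A i j ≠ 0 → i ∈ T) :
    (Finset.univ.filter fun p : ME A => ME.t A p = j).card ≤ T.card := by
  classical
  apply Finset.card_le_card_of_injOn (fun p => p.1.1)
  · intro p hp
    have hp := (Finset.mem_filter.1 hp).2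
    exact hT _ (hp ▸ p.2)
  · intro p hp p' hp' h
    have hp := (Finset.mem_filter.1 hp).2
    have hp' := (Finset.mem_filter.1 hp').2
    exact Subtype.ext (Prod.ext h (hp.trans hp'.symm))

end Pool.Agent.Q181.LR
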