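import Pool.Agent.Q181.LW.Sub3
import Pool.Agent.Q181.LW.Base

set_option autoImplicit false
set_option linter.unusedSectionVars false

/-! Subdivision of the graph of a rectangular matrix over a group ring. -/

namespace Pool.Agent.Q181.LR

open Matrix TH57.Thr
open Pool.Agent.Q181.LW (Mono mono_zero mono_one mono_neg sum_right sum_left schur_test LB
  normSq_sub_le)

variable {G : Type} [Group G] {ι κ E : Type} [Fintype ι] [DecidableEq ι] [Fintype κ]
  [DecidableEq κ] [Fintype E] [DecidableEq E]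

/-- a matrix as a sum of edges -/
def IsSum (s : E → ι) (t : E → κ) (z : E → MonoidAlgebra ℤ G)
    (A : Matrix ι κ (MonoidAlgebra ℤ G)) : Prop :=
  A = ∑ e, Matrix.single (s e) (t e) (z e)

variable (s : E → ι) (t : E → κ) (z : E → MonoidAlgebra ℤ G) (L : ℕ)

noncomputable def Qs : Matrix ι (E × Fin L) (MonoidAlgebra ℤ G) := fun i x =>
  if s x.1 = i ∧ (x.2 : ℕ) = 0 then z x.1 else 0

noncomputable def Ss : Matrix (E × Fin L) κ (MonoidAlgebra ℤ G) := fun x j =>
  if t x.1 = j ∧ (x.2 : ℕ) + 1 = L then -1 else 0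

noncomputable def Us : Matrix (E × Fin L) (E × Fin L) (MonoidAlgebra ℤ G) := fun x y =>
  if x.1 = y.1 then (if x.2 = y.2 then 1 else if (x.2 : ℕ) + 1 = y.2 then -1 else 0) else 0

noncomputable def Vs : Matrix (E × Fin L) (E × Fin L) (MonoidAlgebra ℤ G) := fun x y =>
  if x.1 = y.1 ∧ x.2 ≤ y.2 then 1 else 0

theorem UsVs : (Us L : Matrix (E × Fin L) (E × Fin L) (MonoidAlgebra ℤ G)) * Vs L = 1 := by
  ext1 x y
  rw [Matrix.mul_apply]
  have h1 : ∀ w : E × Fin L, (Us L x w : MonoidAlgebra ℤ G) * Vs L w y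
      = (if x.1 = w.1 then (if x.2 = w.2 then Vs L w y else
        if (x.2 : ℕ) + 1 = w.2 then -(Vs L w y) else 0) else 0) := by
    intro w
    unfold Us
    split_ifs <;> simp
  simp only [h1]
  rw [sum_right x (fun w => (Vs L w y : MonoidAlgebra ℤ G)) (fun w => -(Vs L w y))]
  obtain ⟨e, k⟩ := x
  obtain ⟨e', k'⟩ := y
  simp only [Vs]
  by_cases h2 : e = e'
  · subst h2
    by_cases h3 : k = k'
    · subst h3
      simp only [true_and, le_refl, if_true, Matrix.one_apply_eq]
      split_ifs with h4 h5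
      · exfalso
        rw [Fin.le_def] at h5
        simp at h5
      · simp
      · simp
    · rw [Matrix.one_apply_ne (by simpa using h3)]
      have h3' : (k : ℕ) ≠ k' := fun h => h3 (Fin.ext h)
      simp only [true_and, Fin.le_def]
      split_ifs with h4 h5 h6 h5 h6 <;> first | (exfalso; omega) | simp
  · rw [Matrix.one_apply_ne (by intro h; exact h2 (congrArg Prod.fst h))]
    simp [h2]

theorem VsUs : (Vs L : Matrix (E × Fin L) (E × Fin L) (MonoidAlgebra ℤ G)) * Us L = 1 := by
  ext1 x y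
  rw [Matrix.mul_apply]
  have h1 : ∀ w : E × Fin L, (Vs L x w : MonoidAlgebra ℤ G) * Us L w y
      = (if w.1 = y.1 then (if w.2 = y.2 then Vs L x w else
        if (w.2 : ℕ) + 1 = y.2 then -(Vs L x w) else 0) else 0) := by
    intro w
    unfold Us
    split_ifs <;> simp
  simp only [h1]
  rw [sum_left y (fun w => (Vs L x w : MonoidAlgebra ℤ G)) (fun w => -(Vs L x w))]
  obtain ⟨e, k⟩ := x
  obtain ⟨e', k'⟩ := y
  simp only [Vs]
  by_cases h2 : e = e'
  · subst h2
    by_cases h3 : k = k'
    · subst h3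
      simp only [true_and, le_refl, if_true, Matrix.one_apply_eq, Fin.le_def]
      split_ifs with h4 h5
      · exfalso
        omega
      · simp
      · simp
    · rw [Matrix.one_apply_ne (by simpa using h3)]
      have h3' : (k : ℕ) ≠ k' := fun h => h3 (Fin.ext h)
      simp only [true_and, Fin.le_def]
      split_ifs with h4 h5 h6 h5 h6 <;> first | (exfalso; omega) | simp
  · rw [Matrix.one_apply_ne (by intro h; exact h2 (congrArg Prod.fst h))]
    simp [h2]

noncomputable def Qv : Matrix ι (E × Fin L) (MonoidAlgebra ℤ G) := fun i x =>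
  if s x.1 = i then z x.1 else 0

noncomputable def Sv : Matrix (E × Fin L) κ (MonoidAlgebra ℤ G) := fun x j =>
  if t x.1 = j then -1 else 0

theorem QsVs (hL : 1 ≤ L) : (Qs s z L : Matrix ι (E × Fin L) (MonoidAlgebra ℤ G))
    * (Vs L : Matrix (E × Fin L) (E × Fin L) (MonoidAlgebra ℤ G)) = Qv s z L := by
  ext1 i x
  rw [Matrix.mul_apply, Finset.sum_eq_single ((x.1, ⟨0, hL⟩) : E × Fin L)]
  · simp only [Qs, Vs, Qv]
    have h1 : (⟨0, hL⟩ : Fin L) ≤ x.2 := by rw [Fin.le_def]; exact Nat.zero_le _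
    simp only [and_true, h1, if_true, mul_one]
  · rintro ⟨e, k⟩ - hne
    simp only [Qs, Vs]
    split_ifs with h1 h2
    · exfalso
      apply hne
      rw [← h2.1]
      congr 1
      exact Fin.ext h1.2
    · simp
    · simp
    · simp
  · intro h; exact absurd (Finset.mem_univ _) h

theorem VsSs (hL : 1 ≤ L) : (Vs L : Matrix (E × Fin L) (E × Fin L) (MonoidAlgebra ℤ G))
    * (Ss t L : Matrix (E × Fin L) κ (MonoidAlgebra ℤ G)) = Sv t L := by
  ext1 x j
  rw [Matrix.mul_apply, Finset.sum_eq_single ((x.1, ⟨L - 1, by omega⟩) : E × Fin L)]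
  · simp only [Ss, Vs, Sv]
    have h1 : x.2 ≤ (⟨L - 1, by omega⟩ : Fin L) := by
      rw [Fin.le_def]; simp only; omega
    have h2 : L - 1 + 1 = L := by omega
    simp only [and_true, h1, if_true, one_mul, h2]
  · rintro ⟨e, k⟩ - hne
    simp only [Ss, Vs]
    split_ifs with h1 h2
    · exfalso
      apply hne
      rw [h1.1]
      congr 1
      apply Fin.ext
      simp only
      omega
    · simp
    · simp
    · simp
  · intro h; exact absurd (Finset.mem_univ _) h

theorem QVS (hL : 1 ≤ L) (A : Matrix ι κ (MonoidAlgebra ℤ G)) (hA : IsSum s t z A) :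
    A = -((Qs s z L : Matrix ι (E × Fin L) (MonoidAlgebra ℤ G))
      * (Vs L : Matrix (E × Fin L) (E × Fin L) (MonoidAlgebra ℤ G))
      * (Ss t L : Matrix (E × Fin L) κ (MonoidAlgebra ℤ G))) := by
  rw [QsVs s z L hL, hA]
  ext1 i j
  rw [Matrix.neg_apply, Matrix.mul_apply, Matrix.sum_apply, Fintype.sum_prod_type,
    ← Finset.sum_neg_distrib]
  refine Finset.sum_congr rfl fun e _ => ?_
  rw [Finset.sum_eq_single ⟨L - 1, by omega⟩]
  · simp only [Ss, Qv, Matrix.single_apply]
    have h2 : L - 1 + 1 = L := by omega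
    simp only [h2, and_true]
    split_ifs with h3 h4 h5 h6 <;> simp_all
  · intro k _ hk
    simp only [Ss]
    rw [if_neg, mul_zero]
    rintro ⟨-, h⟩
    apply hk
    apply Fin.ext
    simp only
    omega
  · intro h; exact absurd (Finset.mem_univ _) h

theorem Us_tri (x y : E × Fin L) (hxy : x ≠ y) (h : (Us L x y : MonoidAlgebra ℤ G) ≠ 0) :
    (x.2 : ℕ) < y.2 := by
  unfold Us at h
  split_ifs at h with h1 h2 h3
  · exact absurd (Prod.ext h1 h2) hxy
  · omega
  · exact absurd rfl h
  · exact absurd rfl h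

end Pool.Agent.Q181.LR
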